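import Pool.Agent.Lib_MP_92ef0c_nt.Count

/-! The Omega theorem. -/

set_option autoImplicit false

open Finset

namespace Pool.Agent.PrimePairOmega

variable {d : ℕ}

/-- all errors in the window are at most `E` -/
def Small (d : ℕ) (D X : ℝ) (Q : ℕ) (E : ℝ) : Prop :=
  ∀ x : ℝ, X ≤ x → x ≤ X + (Q : ℝ) ^ 12 → ∀ q a : ℕ, 0 < q → q ≤ Q →
    Nat.Coprime a q → Nat.Coprime (a + d) q →
    |(pairCount d x a q : ℝ) - D / adm d q * Li2 x| ≤ E

lemma ap_estimate (hd0 : 0 < d) (hd : Even d) {D X E : ℝ} {Q : ℕ} (hD : 0 < D) (hX : 3 ≤ X)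
    (hQX : 2 * (Q : ℝ) ^ 22 ≤ X) (hE : 0 ≤ E) (hsmall : Small d D X Q E) {n q L : ℕ}
    (hn : ⌊X⌋₊ + 1 ≤ n) (hq : 0 < q) (hqQ : q ≤ Q) (hL : 1 ≤ L) (hLq : L * q ≤ Q ^ 10)
    (htop : ((n + (L - 1) * q + d : ℕ) : ℝ) ≤ X + (Q : ℝ) ^ 12) :
    |∑ j ∈ range L, ind d (n + j * q) - D / (Real.log X) ^ 2 * (L * rho d q n)| ≤
      2 * E + 2 * (D / (Real.log X) ^ 2) * Cq d q := by
  have hX0 : 0 < X := by linarith
  have hlX : 0 < Real.log X := Real.log_pos (by linarith)
  have hκ : 0 < D / (Real.log X) ^ 2 := by positivity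
  have hC := Cq_nonneg (d := d) hd q
  have hQ1 : 1 ≤ Q := by omega
  have hQ1' : (1 : ℝ) ≤ Q := by exact_mod_cast hQ1
  have hXn : X < n := by
    have h1 := Nat.lt_floor_add_one X
    have h2 : ((⌊X⌋₊ + 1 : ℕ) : ℝ) ≤ n := by exact_mod_cast hn
    push_cast at h2
    linarith
  have hqn : q < n := by
    have h1 : (q : ℝ) < n := by
      calc (q : ℝ) ≤ Q := by exact_mod_cast hqQ
        _ = (Q : ℝ) ^ 1 := (pow_one _).symm
        _ ≤ (Q : ℝ) ^ 22 := pow_le_pow_right₀ hQ1' (by norm_num)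
        _ ≤ 2 * (Q : ℝ) ^ 22 := by nlinarith [pow_pos (by linarith : (0 : ℝ) < Q) 22]
        _ ≤ X := hQX
        _ < n := hXn
    exact_mod_cast h1
  by_cases hcop : Nat.Coprime n q ∧ Nat.Coprime (n + d) q
  · rw [rho_eq hq n, if_pos hcop, ← count_ap d n q L (by omega) hq hL]
    set y : ℕ := n + (L - 1) * q + d with hy
    set z : ℕ := n - 1 + d with hz
    have hzy : z ≤ y := by omega
    have hXz : X ≤ (z : ℝ) := by
      have h1 : (n : ℝ) ≤ z := by exact_mod_cast (by omega : n ≤ z)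
      linarith
    have hzy' : (z : ℝ) ≤ y := by exact_mod_cast hzy
    have h1 := hsmall y (hXz.trans hzy') htop q n hq hqQ hcop.1 hcop.2
    have h2 := hsmall z hXz (hzy'.trans htop) q n hq hqQ hcop.1 hcop.2
    have hlen : (y : ℝ) - z = ((L - 1 : ℕ) : ℝ) * q + 1 := by
      have : y = z + ((L - 1) * q + 1) := by omega
      rw [this]; push_cast; ring
    obtain ⟨h3, h4⟩ := Li2_sub_bounds (by linarith) hXz hzy' htop
    rw [hlen] at h3 h4
    set u := 1 / (Real.log X) ^ 2 with hu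
    set v := 1 / (Real.log (X + (Q : ℝ) ^ 12)) ^ 2 with hv
    have hu0 : 0 < u := by positivity
    have hv0 : 0 ≤ v := by positivity
    have hvu : v ≤ u := by
      apply div_le_div_of_nonneg_left (by norm_num) (by positivity)
      apply pow_le_pow_left₀ hlX.le
      exact Real.log_le_log hX0 (by linarith [pow_pos (by linarith : (0 : ℝ) < Q) 12])
    have hcmp := log_compare (X := X) (Y := X + (Q : ℝ) ^ 12) (K := (Q : ℝ) ^ 10) hX
      (by linarith [pow_pos (by linarith : (0 : ℝ) < Q) 12]) (by positivity)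
      (by
        have : 2 * (Q : ℝ) ^ 10 * (X + (Q : ℝ) ^ 12 - X) = 2 * (Q : ℝ) ^ 22 := by ring
        rw [this]; exact hQX)
    rw [← hu, ← hv] at hcmp
    have hL1 : ((L - 1 : ℕ) : ℝ) = (L : ℝ) - 1 := by
      rw [Nat.cast_sub hL]; simp
    rw [hL1] at h3 h4
    have hLqR : (L : ℝ) * q ≤ (Q : ℝ) ^ 10 := by exact_mod_cast hLq
    have hq1 : (1 : ℝ) ≤ q := by exact_mod_cast hq
    have hLR : (1 : ℝ) ≤ L := by exact_mod_cast hL
    have h5 : |(Li2 y - Li2 z) - L * q * u| ≤ 2 * q * u := by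
      have e1 : (((L : ℝ) - 1) * q + 1) / (Real.log X) ^ 2 = (((L : ℝ) - 1) * q + 1) * u := by
        rw [hu]; ring
      have e2 : (((L : ℝ) - 1) * q + 1) / (Real.log (X + (Q : ℝ) ^ 12)) ^ 2 =
          (((L : ℝ) - 1) * q + 1) * v := by rw [hv]; ring
      rw [e2] at h3
      rw [e1] at h4
      rw [abs_le]
      constructor
      · -- lower
        have h6 : ((L : ℝ) - 1) * q * (u - v) ≤ (Q : ℝ) ^ 10 * (u - v) := by
          apply mul_le_mul_of_nonneg_right _ (by linarith)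
          nlinarith
        nlinarith
      · nlinarith
    have hadm := adm_pos (d := d) hd hq
    have hDa : 0 < D / adm d q := by positivity
    have h6 : D / (Real.log X) ^ 2 * (L * Cq d q) = D / adm d q * (L * q * u) := by
      rw [Cq_eq hd hq, hu]; ring
    have h7 : 2 * (D / (Real.log X) ^ 2) * Cq d q = D / adm d q * (2 * q * u) := by
      rw [Cq_eq hd hq, hu]; ring
    rw [h6, h7]
    have h8 : |D / adm d q * ((Li2 y - Li2 z) - L * q * u)| ≤ D / adm d q * (2 * q * u) := by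
      rw [abs_mul, abs_of_pos hDa]
      exact mul_le_mul_of_nonneg_left h5 hDa.le
    have h9 : (pairCount d (y : ℝ) n q : ℝ) - pairCount d (z : ℝ) n q -
        D / adm d q * (L * q * u) =
        ((pairCount d (y : ℝ) n q : ℝ) - D / adm d q * Li2 y) -
        ((pairCount d (z : ℝ) n q : ℝ) - D / adm d q * Li2 z) +
        D / adm d q * ((Li2 y - Li2 z) - L * q * u) := by ring
    rw [h9]
    refine (abs_add_le _ _).trans ?_
    refine add_le_add ?_ h8
    refine (abs_sub _ _).trans ?_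
    linarith
  · rw [rho_eq hq n, if_neg hcop, sum_eq_zero (fun j _ => ind_ap_zero hq hqn hcop j)]
    simp only [mul_zero, sub_zero, abs_zero]
    have : 0 ≤ 2 * (D / (Real.log X) ^ 2) * Cq d q := by positivity
    linarith

/-- the function to which Roth's lower bound is applied -/
noncomputable def FF (d Q N b : ℕ) (κ : ℝ) (M : ℕ) (z : ZMod M) : ℝ :=
  if z.val < N then ind d (b + z.val) - κ * gg d Q ((b + z.val : ℕ) : ℤ) else 0

lemma abs_FF_le (hd : Even d) {Q N b : ℕ} {κ : ℝ} {M : ℕ} (hκ0 : 0 ≤ κ) (hκ : κ ≤ 1) (hQ : 1 ≤ Q)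
    (z : ZMod M) : |FF d Q N b κ M z| ≤ 2 * (Q : ℝ) ^ 2 := by
  have hQ' : (1 : ℝ) ≤ (Q : ℝ) ^ 2 := one_le_pow₀ (by exact_mod_cast hQ)
  unfold FF
  split_ifs
  · refine (abs_sub _ _).trans ?_
    have h1 : |ind d (b + z.val)| ≤ 1 := by
      rw [abs_of_nonneg (ind_nonneg _ _)]; exact ind_le_one _ _
    have h2 : |κ * gg d Q ((b + z.val : ℕ) : ℤ)| ≤ (Q : ℝ) ^ 2 := by
      rw [abs_mul, abs_of_nonneg hκ0]
      calc κ * |gg d Q ((b + z.val : ℕ) : ℤ)| ≤ 1 * (Q : ℝ) ^ 2 :=
            mul_le_mul hκ (abs_gg_le hd Q _) (abs_nonneg _) (by norm_num)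
        _ = (Q : ℝ) ^ 2 := one_mul _
    linarith
  · rw [abs_zero]; positivity

/-- The basic inequality. -/
theorem basic_inequality (hd0 : 0 < d) (hd : Even d) {D X E : ℝ} {Q L : ℕ} (hD : 0 < D)
    (hX : 3 ≤ X) (hQX : 2 * (Q : ℝ) ^ 22 ≤ X) (hE : 0 ≤ E) (hsmall : Small d D X Q E)
    (hκ : D / (Real.log X) ^ 2 ≤ 1) (hdQ : d + 2 ≤ Q) (hL1 : 1 ≤ L) (hL : 8 * L ≤ Q + 1)
    (hH : D / (Real.log X) ^ 2 * HH d Q ≤ 1 / 2) :
    ((L : ℝ) ^ 2 / 2) * ((1 / 4) * (D / (Real.log X) ^ 2 * (Q : ℝ) ^ 10 -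
        (2 * E + 2 * (D / (Real.log X) ^ 2)))) ≤
      (Q : ℝ) * (Q : ℝ) ^ 10 * (16 * E ^ 2 + 96 * (D / (Real.log X) ^ 2) ^ 2 * Q) +
      2 * (D / (Real.log X) ^ 2) ^ 2 * (4 * (Q : ℝ) ^ 2 * (Q : ℝ) ^ 10 * HH d Q + (Q : ℝ) ^ 9) +
      8 * (Q : ℝ) ^ 9 := by
  set κ := D / (Real.log X) ^ 2 with hκdef
  have hX0 : 0 < X := by linarith
  have hlX : 0 < Real.log X := Real.log_pos (by linarith)
  have hκ0 : 0 < κ := by positivity
  have hQ1 : 1 ≤ Q := by omega
  have hQ1' : (1 : ℝ) ≤ Q := by exact_mod_cast hQ1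
  have hLQ : L ≤ Q := by omega
  set N := Q ^ 10 with hN
  have hN' : (N : ℝ) = (Q : ℝ) ^ 10 := by rw [hN]; push_cast; rfl
  have hLQN : L * Q ≤ N := by
    calc L * Q ≤ Q * Q := Nat.mul_le_mul_right Q hLQ
      _ = Q ^ 2 := by ring
      _ ≤ Q ^ 10 := Nat.pow_le_pow_right hQ1 (by norm_num)
  set M := N + L * Q with hM
  have hM0 : 0 < M := by positivity
  have : NeZero M := ⟨hM0.ne'⟩
  set b := ⌊X⌋₊ + 1 with hb
  have hbX : (b : ℝ) ≤ X + 1 := by
    rw [hb]; push_cast
    linarith [Nat.floor_le hX0.le]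
  set F := FF d Q N b κ M with hF
  -- every element of the window is below the top
  have htop : ∀ m : ℕ, m < b + N → ((m + d : ℕ) : ℝ) ≤ X + (Q : ℝ) ^ 12 := by
    intro m hm
    have h1 : (m : ℝ) + 1 ≤ b + N := by exact_mod_cast hm
    have h2 : (d : ℝ) + 2 ≤ Q := by exact_mod_cast hdQ
    have h3 : (Q : ℝ) ^ 10 + Q ≤ (Q : ℝ) ^ 12 := by
      have h4 : (2 : ℝ) ≤ Q := by exact_mod_cast (by omega : 2 ≤ Q)
      have h5 : (Q : ℝ) ≤ (Q : ℝ) ^ 10 := by
        calc (Q : ℝ) = (Q : ℝ) ^ 1 := (pow_one _).symm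
          _ ≤ (Q : ℝ) ^ 10 := pow_le_pow_right₀ hQ1' (by norm_num)
      have h6 : (Q : ℝ) ^ 12 = (Q : ℝ) ^ 10 * (Q * Q) := by ring
      rw [h6]
      have h7 : (4 : ℝ) ≤ Q * Q := by nlinarith
      have h8 : (Q : ℝ) ^ 10 * 4 ≤ (Q : ℝ) ^ 10 * (Q * Q) :=
        mul_le_mul_of_nonneg_left h7 (by positivity)
      linarith
    push_cast
    rw [hN'] at h1
    linarith
  have hroth := roth (M := M) Q L (by omega) hL F
  -- lower bound for the energy
  have henergy : (1 / 4) * (κ * (Q : ℝ) ^ 10 - (2 * E + 2 * κ)) ≤ ∑ z, F z ^ 2 := by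
    have h1 : ∑ i ∈ range N, (1 / 4) * ind d (b + i) ≤ ∑ z, F z ^ 2 := by
      rw [← sum_range_zmod M (fun z => F z ^ 2)]
      have h2 : ∑ i ∈ range N, (1 / 4) * ind d (b + i) ≤
          ∑ i ∈ range N, F (i : ZMod M) ^ 2 := by
        apply sum_le_sum
        intro i hi
        rw [mem_range] at hi
        have hval : ((i : ZMod M)).val = i := ZMod.val_cast_of_lt (by omega)
        have h3 : F (i : ZMod M) = ind d (b + i) - κ * gg d Q ((b + i : ℕ) : ℤ) := by
          rw [hF]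
          unfold FF
          rw [hval, if_pos hi]
        rw [h3]
        unfold ind
        split_ifs with hpr
        · -- prime pair: model value is HH
          have hbig : Q < b + i := by
            have h5 : (Q : ℝ) < b := by
              calc (Q : ℝ) = (Q : ℝ) ^ 1 := (pow_one _).symm
                _ ≤ (Q : ℝ) ^ 22 := pow_le_pow_right₀ hQ1' (by norm_num)
                _ ≤ 2 * (Q : ℝ) ^ 22 := by nlinarith [pow_pos (by linarith : (0 : ℝ) < Q) 22]
                _ ≤ X := hQX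
                _ < b := by rw [hb]; push_cast; exact Nat.lt_floor_add_one X
            have : Q < b := by exact_mod_cast h5
            omega
          have h4 : gg d Q ((b + i : ℕ) : ℤ) = HH d Q := by
            apply gg_eq
            intro p hp hpQ
            constructor
            · intro h5
              have h6 : p ∣ b + i := by exact_mod_cast h5
              have h7 := (Nat.prime_dvd_prime_iff_eq hp hpr.1).mp h6
              omega
            · intro h5
              have h6 : p ∣ b + i + d := by exact_mod_cast h5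
              have h7 := (Nat.prime_dvd_prime_iff_eq hp hpr.2.2).mp h6
              omega
          rw [h4]
          have hHn : 0 ≤ HH d Q := by
            unfold HH
            exact sum_nonneg (fun s hs => prod_nonneg (fun p hp =>
              hh_nonneg hd ((mem_RR hs).1 p hp)))
          have h8 : 0 ≤ κ * HH d Q := by positivity
          nlinarith
        · simp only [mul_zero]
          positivity
      refine h2.trans ?_
      exact sum_le_sum_of_subset_of_nonneg (range_subset_range.mpr (by omega))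
        (fun _ _ _ => sq_nonneg _)
    refine le_trans ?_ h1
    rw [← mul_sum]
    apply mul_le_mul_of_nonneg_left _ (by norm_num)
    have hNpos : 1 ≤ N := Nat.one_le_pow _ _ hQ1
    have h5 := ap_estimate hd0 hd hD hX hQX hE hsmall (n := b) (q := 1) (L := N) le_rfl
      one_pos hQ1 hNpos (by rw [mul_one]) (by
        apply htop
        rw [mul_one]; omega)
    have h6 : rho d 1 (b : ℤ) = 1 := by unfold rho; simp
    have h7 : Cq d 1 = 1 := by unfold Cq; simp
    rw [h6, h7, mul_one, mul_one] at h5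
    have h8 := (abs_le.mp h5).1
    have h9 : ∑ j ∈ range N, ind d (b + j * 1) = ∑ j ∈ range N, ind d (b + j) := by simp
    rw [h9, hN'] at h8
    linarith
  -- upper bound
  have hupper : ∑ q ∈ Icc 1 Q, ∑ z : ZMod M, (∑ j ∈ range L, F (z + (j : ZMod M) * (q : ZMod M))) ^ 2
      ≤ ∑ q ∈ Icc 1 Q, (∑ i ∈ range N, (16 * E ^ 2 + 96 * κ ^ 2 * Q +
          2 * κ ^ 2 * EE d Q L q ((b : ℤ) + i) ^ 2) + 8 * (Q : ℝ) ^ 8) := by
    apply sum_le_sum
    intro q hq
    rw [mem_Icc] at hq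
    have hq0 : 0 < q := hq.1
    rw [← sum_range_zmod M (fun z => (∑ j ∈ range L, F (z + (j : ZMod M) * (q : ZMod M))) ^ 2)]
    have hsplit : M = (N - L * Q) + (2 * (L * Q)) := by omega
    have hr : range M = range ((N - L * Q) + 2 * (L * Q)) := congrArg range hsplit
    rw [hr, sum_range_add]
    apply add_le_add
    · -- interior
      have h1 : ∀ i ∈ range (N - L * Q),
          (∑ j ∈ range L, F ((i : ZMod M) + (j : ZMod M) * (q : ZMod M))) ^ 2 ≤
          16 * E ^ 2 + 96 * κ ^ 2 * Q + 2 * κ ^ 2 * EE d Q L q ((b : ℤ) + i) ^ 2 := by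
        intro i hi
        rw [mem_range] at hi
        have hjq : ∀ j ∈ range L, i + j * q < N := by
          intro j hj
          rw [mem_range] at hj
          have : j * q ≤ L * Q := Nat.mul_le_mul hj.le hq.2
          omega
        have h2 : ∑ j ∈ range L, F ((i : ZMod M) + (j : ZMod M) * (q : ZMod M)) =
            ∑ j ∈ range L, ind d (b + i + j * q) -
              κ * ∑ j ∈ range L, gg d Q (((b + i : ℕ) : ℤ) + (j : ℤ) * q) := by
          rw [mul_sum, ← sum_sub_distrib]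
          apply sum_congr rfl
          intro j hj
          have h3 := hjq j hj
          have h4 : (i : ZMod M) + (j : ZMod M) * (q : ZMod M) = ((i + j * q : ℕ) : ZMod M) := by
            push_cast; rfl
          have hval : (((i + j * q : ℕ) : ZMod M)).val = i + j * q :=
            ZMod.val_cast_of_lt (by omega)
          rw [h4, hF]
          unfold FF
          rw [hval, if_pos h3]
          have e1 : b + (i + j * q) = b + i + j * q := by ring
          rw [e1]
          congr 3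
        rw [h2, sum_gg hq0 hq.2]
        have h5 := ap_estimate hd0 hd hD hX hQX hE hsmall (n := b + i) (q := q) (L := L)
          (by omega) hq0 hq.2 hL1
          ((Nat.mul_le_mul_left L hq.2).trans hLQN) (by
            apply htop
            have := hjq (L - 1) (mem_range.mpr (by omega))
            omega)
        rw [← hκdef] at h5
        have hC := Cq_nonneg (d := d) hd q
        have hC2 := Cq_sq_le (d := d) hd hq0
        set A := ∑ j ∈ range L, ind d (b + i + j * q) - κ * (L * rho d q ((b + i : ℕ) : ℤ)) with hA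
        set B := EE d Q L q ((b + i : ℕ) : ℤ) with hB
        have h6 : ∑ j ∈ range L, ind d (b + i + j * q) -
            κ * (L * rho d q ((b + i : ℕ) : ℤ) + B) = A - κ * B := by rw [hA]; ring
        rw [h6]
        have h7 : A ^ 2 ≤ 8 * E ^ 2 + 48 * κ ^ 2 * Q := by
          have h8 : A ^ 2 ≤ (2 * E + 2 * κ * Cq d q) ^ 2 := by
            rw [← sq_abs]
            exact pow_le_pow_left₀ (abs_nonneg _) h5 2
          have h9 : (2 * E + 2 * κ * Cq d q) ^ 2 ≤ 8 * E ^ 2 + 8 * κ ^ 2 * Cq d q ^ 2 := by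
            nlinarith [sq_nonneg (2 * E - 2 * κ * Cq d q)]
          have h10 : (q : ℝ) ≤ Q := by exact_mod_cast hq.2
          have h11 : 8 * κ ^ 2 * Cq d q ^ 2 ≤ 8 * κ ^ 2 * (6 * Q) := by
            apply mul_le_mul_of_nonneg_left _ (by positivity)
            linarith
          linarith
        have h12 : (((b + i : ℕ)) : ℤ) = (b : ℤ) + i := by push_cast; rfl
        rw [h12] at hB
        rw [← hB]
        nlinarith [sq_nonneg (A + κ * B)]
      refine (sum_le_sum h1).trans ?_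
      apply sum_le_sum_of_subset_of_nonneg (range_subset_range.mpr (by omega))
      intro i _ _
      positivity
    · -- boundary
      have h1 : ∀ x ∈ range (2 * (L * Q)),
          (∑ j ∈ range L, F (((N - L * Q + x : ℕ) : ZMod M) + (j : ZMod M) * (q : ZMod M))) ^ 2 ≤
          (L * (2 * (Q : ℝ) ^ 2)) ^ 2 := by
        intro x _
        rw [← sq_abs]
        apply pow_le_pow_left₀ (abs_nonneg _)
        refine (abs_sum_le_sum_abs _ _).trans ?_
        refine (sum_le_card_nsmul _ _ (2 * (Q : ℝ) ^ 2)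
          (fun j _ => abs_FF_le hd hκ0.le hκ hQ1 _)).trans ?_
        rw [card_range, nsmul_eq_mul]
      refine (sum_le_card_nsmul _ _ _ h1).trans ?_
      rw [card_range, nsmul_eq_mul]
      push_cast
      have hLQ8 : 8 * (L : ℝ) ≤ Q + 1 := by exact_mod_cast hL
      have hL4 : (L : ℝ) ≤ Q := by exact_mod_cast hLQ
      have hL0 : (0 : ℝ) ≤ L := Nat.cast_nonneg L
      calc 2 * ((L : ℝ) * Q) * (L * (2 * (Q : ℝ) ^ 2)) ^ 2
          = 8 * (L ^ 3 * (Q : ℝ) ^ 5) := by ring
        _ ≤ 8 * ((Q : ℝ) ^ 3 * (Q : ℝ) ^ 5) := by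
            apply mul_le_mul_of_nonneg_left _ (by norm_num)
            apply mul_le_mul_of_nonneg_right _ (by positivity)
            exact pow_le_pow_left₀ hL0 hL4 3
        _ = 8 * (Q : ℝ) ^ 8 := by ring
  have hms := mean_square_EE (d := d) hd (Q := Q) (N := N) (L := L)
    (by
      calc Q = Q ^ 1 := (pow_one _).symm
        _ ≤ Q ^ 10 := Nat.pow_le_pow_right hQ1 (by norm_num)) hLQ (b : ℤ)
  -- assemble
  have hfin : ∑ q ∈ Icc 1 Q, (∑ i ∈ range N, (16 * E ^ 2 + 96 * κ ^ 2 * Q +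
          2 * κ ^ 2 * EE d Q L q ((b : ℤ) + i) ^ 2) + 8 * (Q : ℝ) ^ 8) =
      (Q : ℝ) * N * (16 * E ^ 2 + 96 * κ ^ 2 * Q) +
      2 * κ ^ 2 * ∑ q ∈ Icc 1 Q, ∑ i ∈ range N, EE d Q L q ((b : ℤ) + i) ^ 2 +
      8 * (Q : ℝ) ^ 9 := by
    rw [sum_add_distrib]
    have h1 : ∀ q ∈ Icc 1 Q, ∑ i ∈ range N, (16 * E ^ 2 + 96 * κ ^ 2 * Q +
          2 * κ ^ 2 * EE d Q L q ((b : ℤ) + i) ^ 2) =
        N * (16 * E ^ 2 + 96 * κ ^ 2 * Q) +
          2 * κ ^ 2 * ∑ i ∈ range N, EE d Q L q ((b : ℤ) + i) ^ 2 := by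
      intro q _
      rw [sum_add_distrib, sum_const, card_range, nsmul_eq_mul, mul_sum]
    rw [sum_congr rfl h1, sum_add_distrib, sum_const, sum_const, Nat.card_Icc, ← mul_sum]
    simp only [Nat.add_sub_cancel, nsmul_eq_mul]
    ring
  rw [hfin] at hupper
  have hL2 : (0 : ℝ) ≤ (L : ℝ) ^ 2 / 2 := by positivity
  calc ((L : ℝ) ^ 2 / 2) * ((1 / 4) * (κ * (Q : ℝ) ^ 10 - (2 * E + 2 * κ)))
      ≤ ((L : ℝ) ^ 2 / 2) * ∑ z, F z ^ 2 := mul_le_mul_of_nonneg_left henergy hL2
    _ ≤ _ := hroth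
    _ ≤ _ := hupper
    _ ≤ _ := by
        rw [hN']
        have h1 : 2 * κ ^ 2 * ∑ q ∈ Icc 1 Q, ∑ i ∈ range N, EE d Q L q ((b : ℤ) + i) ^ 2 ≤
            2 * κ ^ 2 * (4 * (Q : ℝ) ^ 2 * N * HH d Q + (Q : ℝ) ^ 9) :=
          mul_le_mul_of_nonneg_left hms (by positivity)
        rw [hN'] at h1
        linarith

end Pool.Agent.PrimePairOmega
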