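import Mathlib

/-! Roth type lower bound for sums along progressions with small differences. -/

set_option autoImplicit false

open Finset Complex

namespace Pool.Agent.PrimePairOmega

section
variable {M : ℕ} [NeZero M]

/-- Fourier transform -/
noncomputable def hat (F : ZMod M → ℝ) (k : ZMod M) : ℂ :=
  ∑ x, (F x : ℂ) * ZMod.stdAddChar (-(k * x))

lemma parseval (F : ZMod M → ℝ) : ∑ k, ‖hat F k‖ ^ 2 = M * ∑ x, F x ^ 2 := by
  have h1 : ∀ k : ZMod M, ((‖hat F k‖ ^ 2 : ℝ) : ℂ) =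
      ∑ x, ∑ y, (F x : ℂ) * (F y : ℂ) * ZMod.stdAddChar (k * (y - x)) := by
    intro k
    have h2 : ((‖hat F k‖ ^ 2 : ℝ) : ℂ) = hat F k * (starRingEnd ℂ) (hat F k) := by
      rw [Complex.mul_conj, Complex.normSq_eq_norm_sq]
    rw [h2]
    unfold hat
    rw [map_sum, Finset.sum_mul_sum]
    apply Finset.sum_congr rfl
    intro x _
    apply Finset.sum_congr rfl
    intro y _
    rw [map_mul, Complex.conj_ofReal, ← AddChar.map_neg_eq_conj, neg_neg]
    have h3 : k * (y - x) = -(k * x) + k * y := by ring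
    rw [h3, AddChar.map_add_eq_mul]
    ring
  have h2 : ((∑ k, ‖hat F k‖ ^ 2 : ℝ) : ℂ) = ((M * ∑ x, F x ^ 2 : ℝ) : ℂ) := by
    push_cast
    have h3 : ∑ k : ZMod M, ((‖hat F k‖ : ℂ) ^ 2) = ∑ k : ZMod M, ∑ x, ∑ y,
        (F x : ℂ) * (F y : ℂ) * ZMod.stdAddChar (k * (y - x)) := by
      apply Finset.sum_congr rfl
      intro k _
      rw [← h1 k]
      push_cast
      rfl
    rw [h3, Finset.sum_comm, Finset.mul_sum]
    apply Finset.sum_congr rfl
    intro x _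
    rw [Finset.sum_comm]
    have h4 : ∀ y : ZMod M, ∑ k : ZMod M, (F x : ℂ) * (F y : ℂ) *
        ZMod.stdAddChar (k * (y - x)) = if y = x then (M : ℂ) * (F x : ℂ) ^ 2 else 0 := by
      intro y
      rw [← Finset.mul_sum, AddChar.sum_mulShift _ (ZMod.isPrimitive_stdAddChar M)]
      by_cases h : y = x
      · rw [if_pos h, if_pos (sub_eq_zero.mpr h), h, ZMod.card]
        ring
      · rw [if_neg h, if_neg (sub_ne_zero.mpr h)]
        simp
    rw [Finset.sum_congr rfl (fun y _ => h4 y)]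
    simp
  exact_mod_cast h2

lemma hat_ap (F : ZMod M → ℝ) (L : ℕ) (q : ZMod M) (k : ZMod M) :
    hat (fun x => ∑ j ∈ range L, F (x + (j : ZMod M) * q)) k =
      hat F k * ∑ j ∈ range L, ZMod.stdAddChar (k * ((j : ZMod M) * q)) := by
  unfold hat
  push_cast
  rw [Finset.mul_sum, Finset.sum_congr rfl (fun x _ => Finset.sum_mul _ _ _), Finset.sum_comm]
  apply Finset.sum_congr rfl
  intro j _
  rw [Finset.sum_mul]
  have h1 := Equiv.sum_comp (Equiv.subRight ((j : ZMod M) * q))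
    (fun x => (F (x + (j : ZMod M) * q) : ℂ) * ZMod.stdAddChar (-(k * x)))
  rw [← h1]
  apply Finset.sum_congr rfl
  intro x _
  simp only [Equiv.subRight_apply, sub_add_cancel]
  have h2 : -(k * (x - (j : ZMod M) * q)) = -(k * x) + k * ((j : ZMod M) * q) := by ring
  rw [h2, AddChar.map_add_eq_mul]
  ring

lemma exists_q (Q L : ℕ) (hQ : 0 < Q) (hL : 8 * L ≤ Q + 1) (k : ZMod M) :
    ∃ q ∈ Finset.Icc 1 Q, (L : ℝ) ^ 2 / 2 ≤
      ‖∑ j ∈ range L, ZMod.stdAddChar (k * ((j : ZMod M) * (q : ZMod M)))‖ ^ 2 := by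
  have hM : (M : ℝ) ≠ 0 := by exact_mod_cast NeZero.ne M
  have hMC : (M : ℂ) ≠ 0 := by exact_mod_cast NeZero.ne M
  obtain ⟨q, hq0, hqQ, hq⟩ := Real.exists_nat_abs_mul_sub_round_le ((k.val : ℝ) / M) hQ
  refine ⟨q, Finset.mem_Icc.mpr ⟨hq0, hqQ⟩, ?_⟩
  set ε : ℝ := (q : ℝ) * ((k.val : ℝ) / M) - round ((q : ℝ) * ((k.val : ℝ) / M)) with hε
  set R : ℤ := round ((q : ℝ) * ((k.val : ℝ) / M)) with hR
  have hval : ∀ j : ℕ, ZMod.stdAddChar (k * ((j : ZMod M) * (q : ZMod M))) =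
      exp ((2 * Real.pi * (j * ε) : ℝ) * I) := by
    intro j
    have h1 : k * ((j : ZMod M) * (q : ZMod M)) = (((k.val * j * q : ℕ) : ℤ) : ZMod M) := by
      push_cast
      rw [ZMod.natCast_zmod_val]
      ring
    rw [h1, ZMod.stdAddChar_coe]
    have h2 : (2 * (Real.pi : ℂ) * I * (((k.val * j * q : ℕ) : ℤ) : ℂ) / (M : ℂ)) =
        ((2 * Real.pi * (j * ε) : ℝ) : ℂ) * I + ((j * R : ℤ) : ℂ) * (2 * Real.pi * I) := by
      rw [hε]
      push_cast
      field_simp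
      ring
    rw [h2, Complex.exp_add, Complex.exp_int_mul_two_pi_mul_I, mul_one]
  have hre : (L : ℝ) * (Real.sqrt 2 / 2) ≤
      (∑ j ∈ range L, ZMod.stdAddChar (k * ((j : ZMod M) * (q : ZMod M)))).re := by
    rw [Complex.re_sum]
    have h1 : ∀ j ∈ range L, Real.sqrt 2 / 2 ≤
        (ZMod.stdAddChar (k * ((j : ZMod M) * (q : ZMod M)))).re := by
      intro j hj
      rw [mem_range] at hj
      rw [hval j, Complex.exp_ofReal_mul_I_re, ← Real.cos_pi_div_four, ← Real.cos_abs (2 * Real.pi * ((j : ℝ) * ε))]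
      apply Real.cos_le_cos_of_nonneg_of_le_pi (abs_nonneg _)
      · linarith [Real.pi_pos]
      · have h2 : |(2 * Real.pi * ((j : ℝ) * ε))| = 2 * Real.pi * (j * |ε|) := by
          rw [abs_mul (2 * Real.pi), abs_mul (j : ℝ),
            abs_of_pos (by positivity : (0 : ℝ) < 2 * Real.pi),
            abs_of_nonneg (Nat.cast_nonneg j : (0 : ℝ) ≤ (j : ℝ))]
        rw [h2]
        have h3 : (j : ℝ) * |ε| ≤ 1 / 8 := by
          have h4 : (j : ℝ) ≤ (Q + 1) / 8 := by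
            have : ((8 * j : ℕ) : ℝ) ≤ ((Q + 1 : ℕ) : ℝ) := by
              exact_mod_cast (by omega : 8 * j ≤ Q + 1)
            push_cast at this
            linarith
          calc (j : ℝ) * |ε| ≤ ((Q + 1) / 8) * (1 / ((Q : ℝ) + 1)) := by
                apply mul_le_mul h4 _ (abs_nonneg _) (by positivity)
                exact hq
            _ = 1 / 8 := by
                have : (Q : ℝ) + 1 ≠ 0 := by positivity
                field_simp
        nlinarith [Real.pi_pos]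
    calc (L : ℝ) * (Real.sqrt 2 / 2) = ∑ j ∈ range L, Real.sqrt 2 / 2 := by simp
      _ ≤ _ := Finset.sum_le_sum h1
  have hnorm := hre.trans (Complex.re_le_norm _)
  have h5 : ((L : ℝ) * (Real.sqrt 2 / 2)) ^ 2 = (L : ℝ) ^ 2 / 2 := by
    rw [mul_pow, div_pow, Real.sq_sqrt (by norm_num)]
    ring
  rw [← h5]
  exact pow_le_pow_left₀ (by positivity) hnorm 2

/-- Roth's lower bound. -/
theorem roth (Q L : ℕ) (hQ : 0 < Q) (hL : 8 * L ≤ Q + 1) (F : ZMod M → ℝ) :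
    ((L : ℝ) ^ 2 / 2) * ∑ x, F x ^ 2 ≤
      ∑ q ∈ Finset.Icc 1 Q, ∑ x : ZMod M,
        (∑ j ∈ range L, F (x + (j : ZMod M) * (q : ZMod M))) ^ 2 := by
  have hM : (0 : ℝ) < M := by exact_mod_cast Nat.pos_of_ne_zero (NeZero.ne M)
  have h1 : ∀ q : ℕ, (M : ℝ) * ∑ x : ZMod M,
      (∑ j ∈ range L, F (x + (j : ZMod M) * (q : ZMod M))) ^ 2 =
      ∑ k : ZMod M, ‖hat F k‖ ^ 2 *
        ‖∑ j ∈ range L, ZMod.stdAddChar (k * ((j : ZMod M) * (q : ZMod M)))‖ ^ 2 := by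
    intro q
    rw [← parseval (fun x : ZMod M => ∑ j ∈ range L, F (x + (j : ZMod M) * (q : ZMod M)))]
    apply Finset.sum_congr rfl
    intro k _
    rw [hat_ap, norm_mul, mul_pow]
  have h2 : (M : ℝ) * (((L : ℝ) ^ 2 / 2) * ∑ x, F x ^ 2) ≤
      (M : ℝ) * ∑ q ∈ Finset.Icc 1 Q, ∑ x : ZMod M,
        (∑ j ∈ range L, F (x + (j : ZMod M) * (q : ZMod M))) ^ 2 := by
    rw [Finset.mul_sum (Finset.Icc 1 Q), Finset.sum_congr rfl (fun q _ => h1 q), Finset.sum_comm]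
    have h3 : (M : ℝ) * (((L : ℝ) ^ 2 / 2) * ∑ x, F x ^ 2) =
        ∑ k : ZMod M, ‖hat F k‖ ^ 2 * ((L : ℝ) ^ 2 / 2) := by
      rw [← Finset.sum_mul, parseval]; ring
    rw [h3]
    apply Finset.sum_le_sum
    intro k _
    obtain ⟨q, hq, hqk⟩ := exists_q Q L hQ hL k
    calc ‖hat F k‖ ^ 2 * ((L : ℝ) ^ 2 / 2) ≤ ‖hat F k‖ ^ 2 *
          ‖∑ j ∈ range L, ZMod.stdAddChar (k * ((j : ZMod M) * (q : ZMod M)))‖ ^ 2 :=
          mul_le_mul_of_nonneg_left hqk (by positivity)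
      _ ≤ _ := Finset.single_le_sum (f := fun q : ℕ => ‖hat F k‖ ^ 2 *
          ‖∑ j ∈ range L, ZMod.stdAddChar (k * ((j : ZMod M) * (q : ZMod M)))‖ ^ 2)
          (fun i _ => by positivity) hq
  exact le_of_mul_le_mul_left h2 hM

end

end Pool.Agent.PrimePairOmega
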