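import Pool.Agent.Lib_MP_92ef0c_nt.Rho
import Pool.Agent.Lib_MP_92ef0c_nt.Roth

/-! Counting prime pairs in short progressions. -/

set_option autoImplicit false

open Finset

namespace Pool.Agent.PrimePairOmega

/-- `π_d(x; a, q)`: number of odd primes `p ≡ a (mod q)` with `p + d` prime and `p + d ≤ x`. -/
noncomputable def pairCount (d : ℕ) (x : ℝ) (a q : ℕ) : ℕ :=
  ((range (⌊x⌋₊ + 1)).filter
    (fun p => p.Prime ∧ p ≠ 2 ∧ (p + d).Prime ∧ p + d ≤ ⌊x⌋₊ ∧ p ≡ a [MOD q])).card

/-- `Li_2(x)` -/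
noncomputable def Li2 (x : ℝ) : ℝ := ∫ t in (2 : ℝ)..x, 1 / (Real.log t) ^ 2

/-- indicator of prime pairs -/
noncomputable def ind (d : ℕ) (n : ℕ) : ℝ := if n.Prime ∧ n ≠ 2 ∧ (n + d).Prime then 1 else 0

lemma ind_nonneg (d n : ℕ) : 0 ≤ ind d n := by unfold ind; split_ifs <;> norm_num

lemma ind_le_one (d n : ℕ) : ind d n ≤ 1 := by unfold ind; split_ifs <;> norm_num

lemma pairCount_eq (d m a q : ℕ) :
    (pairCount d ((m + d : ℕ) : ℝ) a q : ℝ) =
      ∑ p ∈ range (m + 1), if p ≡ a [MOD q] then ind d p else 0 := by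
  unfold pairCount
  rw [Nat.floor_natCast]
  have h1 : (range (m + d + 1)).filter
      (fun p => p.Prime ∧ p ≠ 2 ∧ (p + d).Prime ∧ p + d ≤ m + d ∧ p ≡ a [MOD q]) =
      (range (m + 1)).filter
      (fun p => p ≡ a [MOD q] ∧ p.Prime ∧ p ≠ 2 ∧ (p + d).Prime) := by
    ext p
    simp only [mem_filter, mem_range]
    constructor
    · rintro ⟨h1, h2, h3, h4, h5, h6⟩
      exact ⟨by omega, h6, h2, h3, h4⟩
    · rintro ⟨h1, h2, h3, h4, h5⟩
      exact ⟨by omega, h3, h4, h5, by omega, h2⟩
  rw [h1, card_filter]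
  push_cast
  apply sum_congr rfl
  intro p _
  unfold ind
  by_cases hA : p ≡ a [MOD q] <;> by_cases hB : p.Prime ∧ p ≠ 2 ∧ (p + d).Prime <;> simp [hA, hB]

lemma count_ap (d n q L : ℕ) (hn : 1 ≤ n) (hq : 0 < q) (hL : 1 ≤ L) :
    (pairCount d ((n + (L - 1) * q + d : ℕ) : ℝ) n q : ℝ) -
      pairCount d ((n - 1 + d : ℕ) : ℝ) n q = ∑ j ∈ range L, ind d (n + j * q) := by
  rw [pairCount_eq, pairCount_eq]
  have e : n - 1 + 1 = n := by omega
  rw [e, ← sum_Ico_eq_sub _ (by nlinarith [Nat.zero_le ((L - 1) * q)] : n ≤ n + (L - 1) * q + 1)]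
  rw [← sum_filter]
  have h1 : (Ico n (n + (L - 1) * q + 1)).filter (fun p => p ≡ n [MOD q]) =
      (range L).image (fun j => n + j * q) := by
    ext p
    simp only [mem_filter, mem_Ico, mem_image, mem_range]
    constructor
    · rintro ⟨⟨h2, h3⟩, h4⟩
      have h5 := (Nat.modEq_iff_dvd' h2).mp h4.symm
      obtain ⟨c, hc⟩ := h5
      refine ⟨c, ?_, ?_⟩
      · have h6 : q * c ≤ (L - 1) * q := by omega
        rw [mul_comm] at h6
        have h7 := Nat.le_of_mul_le_mul_right h6 hq
        omega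
      · rw [mul_comm c q]; omega
    · rintro ⟨j, hj, rfl⟩
      refine ⟨⟨by omega, ?_⟩, ?_⟩
      · have h6 : j * q ≤ (L - 1) * q := Nat.mul_le_mul_right q (by omega)
        omega
      · rw [Nat.ModEq]
        simp
  rw [h1, sum_image]
  intro x _ y _ hxy
  have h2 : x * q = y * q := by
    have : n + x * q = n + y * q := hxy
    omega
  exact Nat.eq_of_mul_eq_mul_right hq h2

/-- if `n`, `n + d` are not both coprime to `q` and `n > q` there is no prime pair in the
progression -/
lemma ind_ap_zero {d n q : ℕ} (hq : 0 < q) (hnq : q < n) (h : ¬ (Nat.Coprime n q ∧ Nat.Coprime (n + d) q))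
    (j : ℕ) : ind d (n + j * q) = 0 := by
  unfold ind
  rw [if_neg]
  rintro ⟨h1, -, h2⟩
  apply h
  constructor
  · have h3 : Nat.Coprime (n + j * q) q := by
      rw [Nat.Prime.coprime_iff_not_dvd h1]
      intro h4
      have := Nat.le_of_dvd hq h4
      have : 0 ≤ j * q := Nat.zero_le _
      omega
    have h5 := (Nat.coprime_add_mul_right_left n q j).mp h3
    exact h5
  · have h3 : Nat.Coprime (n + j * q + d) q := by
      rw [Nat.Prime.coprime_iff_not_dvd h2]
      intro h4
      have := Nat.le_of_dvd hq h4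
      have : 0 ≤ j * q := Nat.zero_le _
      omega
    have e : n + j * q + d = n + d + j * q := by ring
    rw [e] at h3
    exact (Nat.coprime_add_mul_right_left (n + d) q j).mp h3

/-! ### the logarithmic integral on short intervals -/

lemma integrable_inv_log_sq {a b : ℝ} (ha : 2 ≤ a) (hb : 2 ≤ b) :
    IntervalIntegrable (fun t : ℝ => 1 / (Real.log t) ^ 2) MeasureTheory.volume a b := by
  apply ContinuousOn.intervalIntegrable
  intro t ht
  have ht2 : 2 ≤ t := by
    rw [Set.uIcc, Set.mem_Icc] at ht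
    exact (le_min ha hb).trans ht.1
  have hlog : Real.log t ≠ 0 := (Real.log_pos (by linarith)).ne'
  have ht0 : t ≠ 0 := by linarith
  apply ContinuousAt.continuousWithinAt
  exact ContinuousAt.div continuousAt_const ((Real.continuousAt_log ht0).pow 2)
    (pow_ne_zero 2 hlog)

lemma Li2_sub {a b : ℝ} (ha : 2 ≤ a) (hb : 2 ≤ b) :
    Li2 b - Li2 a = ∫ t in a..b, 1 / (Real.log t) ^ 2 := by
  unfold Li2
  exact intervalIntegral.integral_interval_sub_left (integrable_inv_log_sq le_rfl hb)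
    (integrable_inv_log_sq le_rfl ha)

lemma Li2_sub_bounds {a b X Y : ℝ} (hX : 2 ≤ X) (ha : X ≤ a) (hab : a ≤ b) (hb : b ≤ Y) :
    (b - a) / (Real.log Y) ^ 2 ≤ Li2 b - Li2 a ∧ Li2 b - Li2 a ≤ (b - a) / (Real.log X) ^ 2 := by
  have ha2 : 2 ≤ a := hX.trans ha
  have hb2 : 2 ≤ b := ha2.trans hab
  rw [Li2_sub ha2 hb2]
  have hlX : 0 < Real.log X := Real.log_pos (by linarith)
  constructor
  · have h1 : ∫ _t in a..b, 1 / (Real.log Y) ^ 2 ≤ ∫ t in a..b, 1 / (Real.log t) ^ 2 := by
      apply intervalIntegral.integral_mono_on hab intervalIntegrable_const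
        (integrable_inv_log_sq ha2 hb2)
      intro t ht
      have ht0 : 0 < Real.log t := Real.log_pos (by linarith [ht.1])
      apply div_le_div_of_nonneg_left (by norm_num) (by positivity)
      apply pow_le_pow_left₀ ht0.le
      exact Real.log_le_log (by linarith [ht.1]) (ht.2.trans hb)
    rw [intervalIntegral.integral_const, smul_eq_mul] at h1
    refine le_trans (le_of_eq ?_) h1
    ring
  · have h1 : ∫ t in a..b, 1 / (Real.log t) ^ 2 ≤ ∫ _t in a..b, 1 / (Real.log X) ^ 2 := by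
      apply intervalIntegral.integral_mono_on hab (integrable_inv_log_sq ha2 hb2)
        intervalIntegrable_const
      intro t ht
      apply div_le_div_of_nonneg_left (by norm_num) (by positivity)
      apply pow_le_pow_left₀ hlX.le
      exact Real.log_le_log (by linarith) (ha.trans ht.1)
    rw [intervalIntegral.integral_const, smul_eq_mul] at h1
    refine h1.trans (le_of_eq ?_)
    ring

/-- comparison of `1/log^2` at the two ends of a short interval -/
lemma log_compare {X Y K : ℝ} (hX : 3 ≤ X) (hXY : X ≤ Y) (hK : 0 < K)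
    (h : 2 * K * (Y - X) ≤ X) :
    K * (1 / (Real.log X) ^ 2 - 1 / (Real.log Y) ^ 2) ≤ 1 / (Real.log X) ^ 2 := by
  have hX0 : 0 < X := by linarith
  have hlX : 1 ≤ Real.log X := by
    rw [Real.le_log_iff_exp_le hX0]
    linarith [Real.exp_one_lt_d9]
  set ε := (Y - X) / X with hε
  have hε0 : 0 ≤ ε := div_nonneg (by linarith) hX0.le
  have hlY : Real.log Y ≤ Real.log X + ε := by
    have h1 : Y = X * (1 + ε) := by rw [hε]; field_simp; ring
    rw [h1, Real.log_mul hX0.ne' (by linarith)]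
    have := Real.log_le_sub_one_of_pos (x := 1 + ε) (by linarith)
    linarith
  have hlXY : Real.log X ≤ Real.log Y := Real.log_le_log hX0 hXY
  have hKε : 2 * K * ε ≤ 1 := by
    rw [hε, ← mul_div_assoc, div_le_one hX0]; exact h
  set u := Real.log X
  set v := Real.log Y
  have hu : 0 < u := by linarith
  have hv : 0 < v := by linarith
  rw [div_sub_div _ _ (by positivity) (by positivity), ← mul_div_assoc,
    div_le_div_iff₀ (by positivity) (by positivity)]
  have h2 : v ^ 2 - u ^ 2 ≤ 2 * ε * v := by nlinarith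
  have h3 : K * (v ^ 2 - u ^ 2) ≤ v ^ 2 := by
    have h4 : K * (v ^ 2 - u ^ 2) ≤ K * (2 * ε * v) := mul_le_mul_of_nonneg_left h2 hK.le
    have h5 : K * (2 * ε * v) = (2 * K * ε) * v := by ring
    have h6 : (2 * K * ε) * v ≤ 1 * v := mul_le_mul_of_nonneg_right hKε hv.le
    nlinarith
  have h7 : 0 < u ^ 2 := by positivity
  nlinarith

end Pool.Agent.PrimePairOmega
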