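import Pool.Agent.Lib_MP_92ef0c_nt.Core

/-! The Omega theorem: choice of parameters. -/

set_option autoImplicit false

open Finset

namespace Pool.Agent.PrimePairOmega

/-- The Omega theorem for an arbitrary positive constant `D`. -/
theorem omega_general {d : ℕ} (hd0 : 0 < d) (hd : Even d) {D : ℝ} (hD : 0 < D) :
    ∃ c δ X0 : ℝ, 0 < c ∧ 0 < δ ∧ 3 ≤ X0 ∧ ∀ X : ℝ, X0 ≤ X → ∀ Q : ℕ, (Real.log X) ^ 2 ≤ Q →
      (Q : ℝ) ≤ X ^ δ → ∃ x : ℝ, ∃ q a : ℕ, X ≤ x ∧ x ≤ X + (Q : ℝ) ^ 12 ∧ 0 < q ∧ q ≤ Q ∧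
        Nat.Coprime a q ∧ Nat.Coprime (a + d) q ∧
        c * Real.sqrt Q / Real.log X ≤ |(pairCount d x a q : ℝ) - D / adm d q * Li2 x| := by
  set c : ℝ := Real.sqrt D / 512 with hc
  have hsD : 0 < Real.sqrt D := Real.sqrt_pos.mpr hD
  have hc0 : 0 < c := by positivity
  have hc2 : c ^ 2 = D / 262144 := by
    rw [hc, div_pow, Real.sq_sqrt hD.le]; norm_num
  set δ : ℝ := min (1 / 23) (1 / (1024 * Real.sqrt (21 * D))) with hδ
  have hs21 : 0 < Real.sqrt (21 * D) := Real.sqrt_pos.mpr (by positivity)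
  have hδ0 : 0 < δ := lt_min (by norm_num) (by positivity)
  have hδ1 : δ ≤ 1 / 23 := min_le_left _ _
  have hδ2 : δ ^ 2 * (21 * D) ≤ 1 / 1048576 := by
    have h1 : δ ≤ 1 / (1024 * Real.sqrt (21 * D)) := min_le_right _ _
    have h2 : δ ^ 2 ≤ (1 / (1024 * Real.sqrt (21 * D))) ^ 2 := pow_le_pow_left₀ hδ0.le h1 2
    have h3 : (1 / (1024 * Real.sqrt (21 * D))) ^ 2 = 1 / (1048576 * (21 * D)) := by
      rw [div_pow, mul_pow, Real.sq_sqrt (by positivity)]; norm_num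
    rw [h3] at h2
    calc δ ^ 2 * (21 * D) ≤ 1 / (1048576 * (21 * D)) * (21 * D) :=
          mul_le_mul_of_nonneg_right h2 (by positivity)
      _ = 1 / 1048576 := by field_simp
  set Λ : ℝ := 100 + 1 / δ + d + 3145728 * D + 163840 / D + 8 * c / D with hΛ
  have e1 : 0 < 1 / δ := by positivity
  have e2 : (0 : ℝ) ≤ d := Nat.cast_nonneg d
  have e3 : 0 < 3145728 * D := by positivity
  have e4 : 0 < 163840 / D := by positivity
  have e5 : 0 < 8 * c / D := by positivity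
  refine ⟨c, δ, Real.exp Λ, hc0, hδ0, ?_, ?_⟩
  · have := Real.add_one_le_exp Λ
    linarith
  intro X hX Q hQ1 hQ2
  by_contra hcon
  push Not at hcon
  have hX0 : 0 < X := lt_of_lt_of_le (Real.exp_pos _) hX
  have hlog : Λ ≤ Real.log X := (Real.le_log_iff_exp_le hX0).mpr hX
  set l := Real.log X with hl
  have hl100 : 100 ≤ l := by linarith
  have hl0 : 0 < l := by linarith
  have hll : l ≤ l ^ 2 := by nlinarith
  have hX3 : 3 ≤ X := by
    have := Real.add_one_le_exp Λ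
    linarith
  have hQl : l ≤ Q := hll.trans hQ1
  have hQ0 : (0 : ℝ) < Q := by linarith
  have hQ16 : (16 : ℝ) ≤ Q := by linarith
  have hQ16' : 16 ≤ Q := by exact_mod_cast hQ16
  -- (b)
  have hQX : 2 * (Q : ℝ) ^ 22 ≤ X := by
    have h1 : (Q : ℝ) ^ 22 ≤ (X ^ δ) ^ 22 := pow_le_pow_left₀ hQ0.le hQ2 22
    have h2 : (X ^ δ) ^ 22 = X ^ (22 * δ) := by
      rw [← Real.rpow_natCast, ← Real.rpow_mul hX0.le]
      congr 1; push_cast; ring
    have h3 : X ^ (22 * δ) ≤ X ^ ((22 : ℝ) / 23) :=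
      Real.rpow_le_rpow_of_exponent_le (by linarith) (by linarith)
    have h4 : (2 : ℝ) ≤ X ^ ((1 : ℝ) / 23) := by
      rw [Real.rpow_def_of_pos hX0, ← Real.log_le_iff_le_exp (by norm_num)]
      have := Real.log_two_lt_d9
      rw [← hl]
      linarith
    have h5 : X = X ^ ((1 : ℝ) / 23) * X ^ ((22 : ℝ) / 23) := by
      rw [← Real.rpow_add hX0]; norm_num
    have h6 : 0 < X ^ ((22 : ℝ) / 23) := Real.rpow_pos_of_pos hX0 _
    calc 2 * (Q : ℝ) ^ 22 ≤ 2 * X ^ ((22 : ℝ) / 23) := by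
          rw [h2] at h1; linarith
      _ ≤ X ^ ((1 : ℝ) / 23) * X ^ ((22 : ℝ) / 23) := mul_le_mul_of_nonneg_right h4 h6.le
      _ = X := h5.symm
  set κ := D / l ^ 2 with hκ
  have hκ0 : 0 < κ := by positivity
  have hκl : κ * l ^ 2 = D := by rw [hκ]; field_simp
  have hκ1 : κ ≤ 1 := by
    rw [hκ, div_le_one (by positivity)]; linarith
  set E := c * Real.sqrt Q / l with hE
  have hE0 : 0 ≤ E := by positivity
  have hsmall : Small d D X Q E := by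
    intro x hx1 hx2 q a hq hqQ ha1 ha2
    exact (hcon x q a hx1 hx2 hq hqQ ha1 ha2).le
  -- bound for HH
  have hHH : κ * HH d Q ≤ 84 * D * δ ^ 2 := by
    have h1 := HH_le (d := d) hd Q
    have h2 : Real.log Q ≤ δ * l := by
      have h3 := Real.log_le_log hQ0 hQ2
      rwa [Real.log_rpow hX0] at h3
    have h4 : 1 ≤ δ * l := by
      have h5 : 1 / δ ≤ l := by linarith
      rw [div_le_iff₀ hδ0] at h5
      linarith
    have h5 : 0 ≤ Real.log Q := Real.log_natCast_nonneg Q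
    have h6 : (1 + Real.log Q) ^ 2 ≤ (2 * (δ * l)) ^ 2 :=
      pow_le_pow_left₀ (by linarith) (by linarith) 2
    have h7 : Real.exp 3 ≤ 21 := by
      have h8 : Real.exp 3 = Real.exp 1 ^ 3 := by rw [← Real.exp_nat_mul]; norm_num
      rw [h8]
      have h9 := Real.exp_one_lt_d9
      have h10 : Real.exp 1 ^ 3 ≤ (2.7182818286 : ℝ) ^ 3 :=
        pow_le_pow_left₀ (Real.exp_pos 1).le h9.le 3
      refine h10.trans ?_
      norm_num
    calc κ * HH d Q ≤ κ * (21 * (2 * (δ * l)) ^ 2) := by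
          apply mul_le_mul_of_nonneg_left _ hκ0.le
          exact h1.trans (mul_le_mul h7 h6 (by positivity) (by norm_num))
      _ = 84 * (κ * l ^ 2) * δ ^ 2 := by ring
      _ = 84 * D * δ ^ 2 := by rw [hκl]
  have hHH2 : κ * HH d Q ≤ 4 / 1048576 := by linarith
  have hκ96 : κ * 96 ≤ 1 / 32768 := by
    rw [hκ, div_mul_eq_mul_div, div_le_iff₀ (by positivity)]
    linarith
  have hdQ : d + 2 ≤ Q := by
    have : ((d + 2 : ℕ) : ℝ) ≤ Q := by push_cast; linarith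
    exact_mod_cast this
  set L := Q / 8 with hL
  have hL1 : 1 ≤ L := by omega
  have hL8 : 8 * L ≤ Q + 1 := by omega
  have hLQ : (Q : ℝ) / 16 ≤ L := by
    have : ((Q : ℕ) : ℝ) ≤ ((16 * L : ℕ) : ℝ) := by exact_mod_cast (by omega : Q ≤ 16 * L)
    push_cast at this
    linarith
  have hbasic := basic_inequality hd0 hd hD hX3 hQX hE0 hsmall hκ1 hdQ hL1 hL8 (by linarith)
  rw [← hl, ← hκ] at hbasic
  -- (g)
  have hg : 163840 ≤ κ * (Q : ℝ) ^ 3 := by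
    have h1 : (l ^ 2) ^ 3 ≤ (Q : ℝ) ^ 3 := pow_le_pow_left₀ (by positivity) hQ1 3
    have h2 : 163840 ≤ D * l := by
      have : 163840 / D ≤ l := by linarith
      rw [div_le_iff₀ hD] at this
      linarith
    have h3 : D * l ≤ D * l ^ 4 := by
      apply mul_le_mul_of_nonneg_left _ hD.le
      have : l ^ 1 ≤ l ^ 4 := pow_le_pow_right₀ (by linarith) (by norm_num)
      simpa using this
    calc (163840 : ℝ) ≤ D * l ^ 4 := h2.trans h3
      _ = κ * (l ^ 2) ^ 3 := by rw [← hκl]; ring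
      _ ≤ κ * (Q : ℝ) ^ 3 := mul_le_mul_of_nonneg_left h1 hκ0.le
  have hE2 : E ^ 2 = κ * Q / 262144 := by
    rw [hE, div_pow, mul_pow, Real.sq_sqrt hQ0.le, hc2, hκ]
    field_simp
  -- (h)
  have hh : 2 * E + 2 * κ ≤ κ * (Q : ℝ) ^ 10 / 2 := by
    have h1 : (8 : ℝ) ≤ (Q : ℝ) ^ 10 := by
      calc (8 : ℝ) ≤ 16 ^ 1 := by norm_num
        _ ≤ (16 : ℝ) ^ 10 := pow_le_pow_right₀ (by norm_num) (by norm_num)
        _ ≤ (Q : ℝ) ^ 10 := pow_le_pow_left₀ (by norm_num) hQ16 10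
    have h2 : 2 * κ ≤ κ * (Q : ℝ) ^ 10 / 4 := by nlinarith
    have hlsq : l ≤ Real.sqrt Q := by
      rw [← Real.sqrt_sq hl0.le]
      exact Real.sqrt_le_sqrt hQ1
    have hss : Real.sqrt Q * Real.sqrt Q = Q := Real.mul_self_sqrt hQ0.le
    have h3 : 8 * c ≤ D * (Q : ℝ) ^ 9 := by
      have h4 : 8 * c / D ≤ Q := by linarith
      rw [div_le_iff₀ hD] at h4
      have h5 : (Q : ℝ) ^ 1 ≤ (Q : ℝ) ^ 9 := pow_le_pow_right₀ (by linarith) (by norm_num)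
      rw [pow_one] at h5
      nlinarith
    have h6 : 8 * (c * Real.sqrt Q * l) ≤ D * (Q : ℝ) ^ 10 := by
      calc 8 * (c * Real.sqrt Q * l) ≤ 8 * (c * Real.sqrt Q * Real.sqrt Q) := by
            apply mul_le_mul_of_nonneg_left _ (by norm_num)
            exact mul_le_mul_of_nonneg_left hlsq (by positivity)
        _ = (8 * c) * Q := by rw [mul_assoc c, hss]; ring
        _ ≤ (D * (Q : ℝ) ^ 9) * Q := mul_le_mul_of_nonneg_right h3 hQ0.le
        _ = D * (Q : ℝ) ^ 10 := by ring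
    have h7 : 2 * E ≤ κ * (Q : ℝ) ^ 10 / 4 := by
      have e6 : 2 * E = 8 * (c * Real.sqrt Q * l) / (4 * l ^ 2) := by
        rw [hE]; field_simp; ring
      have e7 : κ * (Q : ℝ) ^ 10 / 4 = D * (Q : ℝ) ^ 10 / (4 * l ^ 2) := by
        rw [hκ]; field_simp
      rw [e6, e7]
      exact div_le_div_of_nonneg_right h6 (by positivity)
    linarith
  -- conclusion
  have hlow : κ * (Q : ℝ) ^ 12 / 4096 ≤
      ((L : ℝ) ^ 2 / 2) * ((1 / 4) * (κ * (Q : ℝ) ^ 10 - (2 * E + 2 * κ))) := by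
    have h1 : (Q : ℝ) ^ 2 / 512 ≤ (L : ℝ) ^ 2 / 2 := by
      have h2 : ((Q : ℝ) / 16) ^ 2 ≤ (L : ℝ) ^ 2 := pow_le_pow_left₀ (by positivity) hLQ 2
      have h3 : ((Q : ℝ) / 16) ^ 2 = (Q : ℝ) ^ 2 / 256 := by ring
      rw [h3] at h2
      linarith
    have h4 : κ * (Q : ℝ) ^ 10 / 8 ≤ (1 / 4) * (κ * (Q : ℝ) ^ 10 - (2 * E + 2 * κ)) := by linarith
    calc κ * (Q : ℝ) ^ 12 / 4096 = ((Q : ℝ) ^ 2 / 512) * (κ * (Q : ℝ) ^ 10 / 8) := by ring
      _ ≤ _ := mul_le_mul h1 h4 (by positivity) (by positivity)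
  have htot := hlow.trans hbasic
  have hHHn : 0 ≤ HH d Q := by
    unfold HH
    exact sum_nonneg (fun s hs => prod_nonneg (fun p hp => hh_nonneg hd ((mem_RR hs).1 p hp)))
  have hQ11 : (0 : ℝ) < (Q : ℝ) ^ 11 := by positivity
  have hQ9 : (0 : ℝ) < (Q : ℝ) ^ 9 := by positivity
  have hQ12 : (0 : ℝ) < (Q : ℝ) ^ 12 := by positivity
  -- each term
  have t1 : (Q : ℝ) * (Q : ℝ) ^ 10 * (16 * E ^ 2) = κ * (Q : ℝ) ^ 12 / 16384 := by
    rw [hE2]; ring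
  have t2 : (Q : ℝ) * (Q : ℝ) ^ 10 * (96 * κ ^ 2 * Q) ≤ κ * (Q : ℝ) ^ 12 / 32768 := by
    have : (Q : ℝ) * (Q : ℝ) ^ 10 * (96 * κ ^ 2 * Q) = (κ * 96) * (κ * (Q : ℝ) ^ 12) := by ring
    rw [this]
    have h1 := mul_le_mul_of_nonneg_right hκ96 (by positivity : (0 : ℝ) ≤ κ * (Q : ℝ) ^ 12)
    linarith
  have t3 : 2 * κ ^ 2 * (4 * (Q : ℝ) ^ 2 * (Q : ℝ) ^ 10 * HH d Q) ≤
      κ * (Q : ℝ) ^ 12 / 32768 := by
    have : 2 * κ ^ 2 * (4 * (Q : ℝ) ^ 2 * (Q : ℝ) ^ 10 * HH d Q) =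
        8 * (κ * HH d Q) * (κ * (Q : ℝ) ^ 12) := by ring
    rw [this]
    have h1 := mul_le_mul_of_nonneg_right hHH2 (by positivity : (0 : ℝ) ≤ κ * (Q : ℝ) ^ 12)
    linarith
  have t4 : 2 * κ ^ 2 * (Q : ℝ) ^ 9 + 8 * (Q : ℝ) ^ 9 ≤ κ * (Q : ℝ) ^ 12 / 16384 := by
    have h1 : κ ^ 2 ≤ 1 := by nlinarith
    have h2 : 163840 * (Q : ℝ) ^ 9 ≤ κ * (Q : ℝ) ^ 3 * (Q : ℝ) ^ 9 :=
      mul_le_mul_of_nonneg_right hg hQ9.le
    have h3 : κ * (Q : ℝ) ^ 3 * (Q : ℝ) ^ 9 = κ * (Q : ℝ) ^ 12 := by ring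
    nlinarith
  have hpos : 0 < κ * (Q : ℝ) ^ 12 := by positivity
  have hsum : κ * (Q : ℝ) ^ 12 / 4096 ≤ κ * (Q : ℝ) ^ 12 / 16384 + κ * (Q : ℝ) ^ 12 / 32768 +
      κ * (Q : ℝ) ^ 12 / 32768 + κ * (Q : ℝ) ^ 12 / 16384 := by
    have h1 : (Q : ℝ) * (Q : ℝ) ^ 10 * (16 * E ^ 2 + 96 * κ ^ 2 * Q) =
        (Q : ℝ) * (Q : ℝ) ^ 10 * (16 * E ^ 2) + (Q : ℝ) * (Q : ℝ) ^ 10 * (96 * κ ^ 2 * Q) := by
      ring
    have h2 : 2 * κ ^ 2 * (4 * (Q : ℝ) ^ 2 * (Q : ℝ) ^ 10 * HH d Q + (Q : ℝ) ^ 9) =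
        2 * κ ^ 2 * (4 * (Q : ℝ) ^ 2 * (Q : ℝ) ^ 10 * HH d Q) + 2 * κ ^ 2 * (Q : ℝ) ^ 9 := by
      ring
    rw [h1, h2] at htot
    linarith
  linarith

/-- the Hardy-Littlewood constant `2 ∏_{p ∣ d, p > 2} (p-1)/(p-2) · C_2` -/
noncomputable def hlConst (d : ℕ) : ℝ :=
  2 * (∏ p ∈ d.primeFactors.filter (fun p => 2 < p), (((p : ℝ) - 1) / ((p : ℝ) - 2))) *
    (∏' p : {p : ℕ // p.Prime ∧ 2 < p}, (1 - 1 / (((p : ℕ) : ℝ) - 1) ^ 2))

lemma C2_pos : 0 < ∏' p : {p : ℕ // p.Prime ∧ 2 < p}, (1 - 1 / (((p : ℕ) : ℝ) - 1) ^ 2) := by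
  have h3 : ∀ p : {p : ℕ // p.Prime ∧ 2 < p}, (3 : ℝ) ≤ ((p : ℕ) : ℝ) := by
    intro p
    exact_mod_cast p.2.2
  have hpos : ∀ p : {p : ℕ // p.Prime ∧ 2 < p}, 0 < (1 - 1 / (((p : ℕ) : ℝ) - 1) ^ 2) := by
    intro p
    have := h3 p
    have h4 : (4 : ℝ) ≤ (((p : ℕ) : ℝ) - 1) ^ 2 := by nlinarith
    have h5 : 1 / (((p : ℕ) : ℝ) - 1) ^ 2 ≤ 1 / 4 :=
      div_le_div_of_nonneg_left (by norm_num) (by norm_num) h4
    linarith
  have hsum0 : Summable (fun p : {p : ℕ // p.Prime ∧ 2 < p} =>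
      -(1 / (((p : ℕ) : ℝ) - 1) ^ 2)) := by
    have hs : Summable (fun n : ℕ => 4 * (1 / (n : ℝ) ^ 2)) :=
      (Real.summable_one_div_nat_pow.mpr (by norm_num)).mul_left 4
    have hs2 : Summable (fun p : {p : ℕ // p.Prime ∧ 2 < p} => 4 * (1 / ((p : ℕ) : ℝ) ^ 2)) :=
      hs.comp_injective Subtype.val_injective
    refine Summable.of_norm_bounded hs2 ?_
    intro p
    have := h3 p
    rw [norm_neg, Real.norm_of_nonneg (by positivity), mul_one_div]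
    rw [div_le_div_iff₀ (by nlinarith) (by positivity)]
    nlinarith
  have hlog := Real.summable_log_one_add_of_summable hsum0
  have hlog' : Summable (fun p : {p : ℕ // p.Prime ∧ 2 < p} =>
      Real.log (1 - 1 / (((p : ℕ) : ℝ) - 1) ^ 2)) := by
    simpa [sub_eq_add_neg] using hlog
  rw [← Real.rexp_tsum_eq_tprod hpos hlog']
  exact Real.exp_pos _

lemma hlConst_pos (d : ℕ) : 0 < hlConst d := by
  unfold hlConst
  apply mul_pos _ C2_pos
  apply mul_pos (by norm_num)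
  apply prod_pos
  intro p hp
  have : (2 : ℝ) < p := by exact_mod_cast (mem_filter.mp hp).2
  exact div_pos (by linarith) (by linarith)

/-- the Omega theorem in the range of moduli of the problem -/
theorem omega_log {d : ℕ} (hd0 : 0 < d) (hd : Even d) {D : ℝ} (hD : 0 < D) {B : ℝ} (hB : 2 < B) :
    ∃ c X0 : ℝ, 0 < c ∧ ∀ X : ℝ, X0 ≤ X → ∃ x : ℝ, ∃ q a : ℕ, X ≤ x ∧
      x ≤ X + (Real.log X) ^ (12 * B) ∧ 0 < q ∧ (q : ℝ) ≤ (Real.log x) ^ B ∧
      Nat.Coprime a q ∧ Nat.Coprime (a + d) q ∧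
      c * (Real.log x) ^ ((B - 2) / 2) ≤ |(pairCount d x a q : ℝ) - D / adm d q * Li2 x| := by
  obtain ⟨c, δ, X0, hc, hδ, hX03, h⟩ := omega_general hd0 hd hD
  -- growth conditions
  have ev1 : ∀ᶠ X : ℝ in Filter.atTop, (Real.log X) ^ B ≤ X ^ δ := by
    have h1 := (isLittleO_log_rpow_rpow_atTop B hδ).bound (c := 1) one_pos
    filter_upwards [h1, Filter.eventually_ge_atTop 3] with X hX hX3
    rw [one_mul, Real.norm_of_nonneg (Real.rpow_nonneg (Real.log_nonneg (by linarith)) _),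
      Real.norm_of_nonneg (Real.rpow_nonneg (by linarith) _)] at hX
    exact hX
  have ev2 : ∀ᶠ X : ℝ in Filter.atTop, 4 ≤ (Real.log X) ^ (B - 2) :=
    (((tendsto_rpow_atTop (by linarith : 0 < B - 2)).comp
      Real.tendsto_log_atTop).eventually_ge_atTop 4)
  have ev3 : ∀ᶠ X : ℝ in Filter.atTop, (Real.log X) ^ (12 * B) ≤ X := by
    have h1 := (isLittleO_log_rpow_rpow_atTop (12 * B) one_pos).bound (c := 1) one_pos
    filter_upwards [h1, Filter.eventually_ge_atTop 3] with X hX hX3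
    rw [one_mul, Real.norm_of_nonneg (Real.rpow_nonneg (Real.log_nonneg (by linarith)) _),
      Real.rpow_one, Real.norm_of_nonneg (by linarith)] at hX
    exact hX
  obtain ⟨X1, hX1⟩ := (ev1.and (ev2.and ev3)).exists_forall_of_atTop
  refine ⟨c / 2 / 2 ^ ((B - 2) / 2), max X0 X1, by positivity, ?_⟩
  intro X hX
  have hXX0 : X0 ≤ X := (le_max_left _ _).trans hX
  obtain ⟨g1, g2, g3⟩ := hX1 X ((le_max_right _ _).trans hX)
  have hX3 : 3 ≤ X := hX03.trans hXX0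
  have hX0 : 0 < X := by linarith
  set l := Real.log X with hl
  have hl1 : 1 ≤ l := by
    rw [hl, Real.le_log_iff_exp_le hX0]
    linarith [Real.exp_one_lt_d9]
  have hl0 : 0 < l := by linarith
  have hlB : l ^ B = l ^ (B - 2) * l ^ 2 := by
    rw [← Real.rpow_natCast l 2, ← Real.rpow_add hl0]; congr 1; push_cast; ring
  have hl2 : 1 ≤ l ^ 2 := one_le_pow₀ hl1
  have hlB4 : 4 * l ^ 2 ≤ l ^ B := by rw [hlB]; nlinarith
  set Q := ⌊l ^ B⌋₊ with hQ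
  have hQle : (Q : ℝ) ≤ l ^ B := Nat.floor_le (by positivity)
  have hQge : l ^ B / 2 ≤ Q := by
    have := Nat.lt_floor_add_one (l ^ B)
    rw [← hQ] at this
    linarith
  obtain ⟨x, q, a, hx1, hx2, hq, hqQ, ha1, ha2, herr⟩ := h X hXX0 Q (by linarith) (hQle.trans g1)
  have hxX : X ≤ x := hx1
  have hlx : l ≤ Real.log x := Real.log_le_log hX0 hx1
  have hQ12 : (Q : ℝ) ^ 12 ≤ l ^ (12 * B) := by
    calc (Q : ℝ) ^ 12 ≤ (l ^ B) ^ 12 := pow_le_pow_left₀ (Nat.cast_nonneg _) hQle 12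
      _ = l ^ (12 * B) := by
        rw [← Real.rpow_natCast, ← Real.rpow_mul hl0.le]; congr 1; push_cast; ring
  refine ⟨x, q, a, hx1, by linarith, hq, ?_, ha1, ha2, ?_⟩
  · have h1 : (q : ℝ) ≤ Q := by exact_mod_cast hqQ
    have h2 : l ^ B ≤ (Real.log x) ^ B := Real.rpow_le_rpow hl0.le hlx (by linarith)
    linarith
  · refine le_trans ?_ herr
    have h1 : Real.log x ≤ 2 * l := by
      have h2 : x ≤ X * X := by nlinarith
      have h3 := Real.log_le_log (by linarith) h2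
      rw [Real.log_mul hX0.ne' hX0.ne'] at h3
      linarith
    have h2 : (Real.log x) ^ ((B - 2) / 2) ≤ 2 ^ ((B - 2) / 2) * l ^ ((B - 2) / 2) := by
      rw [← Real.mul_rpow (by norm_num) hl0.le]
      exact Real.rpow_le_rpow (by linarith) h1 (by linarith)
    have h3 : l ^ ((B - 2) / 2) / 2 ≤ Real.sqrt Q / l := by
      rw [le_div_iff₀ hl0]
      apply Real.le_sqrt_of_sq_le
      have h4 : (l ^ ((B - 2) / 2) / 2 * l) ^ 2 = l ^ B / 4 := by
        have h5 : (l ^ ((B - 2) / 2)) ^ 2 = l ^ (B - 2) := by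
          rw [← Real.rpow_natCast, ← Real.rpow_mul hl0.le]; congr 1; push_cast; ring
        calc (l ^ ((B - 2) / 2) / 2 * l) ^ 2 = (l ^ ((B - 2) / 2)) ^ 2 * l ^ 2 / 4 := by ring
          _ = l ^ B / 4 := by rw [h5, hlB]
      rw [h4]
      have : 0 < l ^ B := by positivity
      linarith
    have h4 : (0 : ℝ) < 2 ^ ((B - 2) / 2) := by positivity
    calc c / 2 / 2 ^ ((B - 2) / 2) * (Real.log x) ^ ((B - 2) / 2)
        ≤ c / 2 / 2 ^ ((B - 2) / 2) * (2 ^ ((B - 2) / 2) * l ^ ((B - 2) / 2)) :=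
          mul_le_mul_of_nonneg_left h2 (by positivity)
      _ = c * (l ^ ((B - 2) / 2) / 2) := by field_simp
      _ ≤ c * (Real.sqrt Q / l) := mul_le_mul_of_nonneg_left h3 hc.le
      _ = c * Real.sqrt Q / l := by ring

end Pool.Agent.PrimePairOmega
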