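import Mathlib

/-! Local functions attached to the two forbidden residue classes `0, -d` modulo primes, and exact
second moments of their sums along progressions. -/

set_option autoImplicit false

open Finset

namespace Pool.Agent.PrimePairOmega

/-! ### periodic sums -/

section periodic
variable (φ : ℤ → ℝ)

lemma periodic_mul {r : ℕ} (hφ : ∀ n : ℤ, φ (n + r) = φ n) (n m : ℤ) : φ (n + r * m) = φ n := by
  induction m using Int.induction_on with
  | zero => simp
  | succ i ih =>
    rw [← ih, ← hφ (n + r * i)]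
    congr 1; ring
  | pred i ih =>
    rw [← ih, ← hφ (n + r * (-i - 1))]
    congr 1; ring

lemma sum_period {r : ℕ} (hφ : ∀ n : ℤ, φ (n + r) = φ n) (a : ℤ) :
    ∑ i ∈ range r, φ (a + i) = ∑ i ∈ range r, φ i := by
  have step : ∀ a : ℤ, ∑ i ∈ range r, φ (a + 1 + i) = ∑ i ∈ range r, φ (a + i) := by
    intro a
    rcases r with _ | r
    · simp
    · rw [sum_range_succ, sum_range_succ']
      congr 1
      · apply sum_congr rfl
        intro l _
        congr 1
        push_cast
        ring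
      · rw [Nat.cast_zero, add_zero, ← hφ a]
        congr 1
        push_cast
        ring
  have h1 : ∀ n : ℕ, ∑ i ∈ range r, φ ((n : ℤ) + i) = ∑ i ∈ range r, φ i := by
    intro n
    induction n with
    | zero => simp
    | succ n ih => rw [← ih]; push_cast; exact step n
  have h2 : ∀ n : ℕ, ∑ i ∈ range r, φ (-(n : ℤ) + i) = ∑ i ∈ range r, φ i := by
    intro n
    induction n with
    | zero => simp
    | succ n ih =>
      rw [← ih, ← step (-((n + 1 : ℕ) : ℤ))]
      apply sum_congr rfl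
      intro l _
      congr 1
      push_cast
      ring
  rcases Int.eq_nat_or_neg a with ⟨n, rfl | rfl⟩
  · exact h1 n
  · exact h2 n

lemma sum_range_mul' (ψ : ℕ → ℝ) (m r : ℕ) :
    ∑ i ∈ range (m * r), ψ i = ∑ k ∈ range m, ∑ i ∈ range r, ψ (k * r + i) := by
  induction m with
  | zero => simp
  | succ m ih => rw [Nat.succ_mul, sum_range_add, ih, sum_range_succ]

lemma sum_blocks {r : ℕ} (hφ : ∀ n : ℤ, φ (n + r) = φ n) (a : ℤ) (m : ℕ) :
    ∑ i ∈ range (m * r), φ (a + i) = m * ∑ i ∈ range r, φ i := by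
  rw [sum_range_mul' (fun i => φ (a + i)) m r]
  have h1 : ∀ k ∈ range m, ∑ i ∈ range r, φ (a + ((k * r + i : ℕ) : ℤ)) =
      ∑ i ∈ range r, φ i := by
    intro k _
    rw [← sum_period φ hφ (a + k * r)]
    apply sum_congr rfl
    intro i _
    congr 1
    push_cast
    ring
  rw [sum_congr rfl h1]
  simp

lemma sum_window_le {r : ℕ} (hr : 0 < r) (hφ : ∀ n : ℤ, φ (n + r) = φ n) (h0 : ∀ n, 0 ≤ φ n)
    (a : ℤ) (N : ℕ) :
    ∑ i ∈ range N, φ (a + i) ≤ ((N : ℝ) / r + 1) * ∑ i ∈ range r, φ i := by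
  have h1 : N ≤ (N / r + 1) * r := by
    have := Nat.div_add_mod N r
    have h2 := Nat.mod_lt N hr
    nlinarith
  calc ∑ i ∈ range N, φ (a + i) ≤ ∑ i ∈ range ((N / r + 1) * r), φ (a + i) :=
        sum_le_sum_of_subset_of_nonneg (range_subset_range.mpr h1) (fun i _ _ => h0 _)
    _ = ((N / r + 1 : ℕ) : ℝ) * ∑ i ∈ range r, φ i := sum_blocks φ hφ a _
    _ ≤ _ := by
        apply mul_le_mul_of_nonneg_right _ (sum_nonneg (fun i _ => h0 _))
        push_cast
        have := @Nat.cast_div_le ℝ _ _ _ N r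
        linarith

lemma abs_sum_window_le {r : ℕ} (hr : 0 < r) (hφ : ∀ n : ℤ, φ (n + r) = φ n) {B : ℝ}
    (hB : ∀ n, |φ n| ≤ B) (hs : ∑ i ∈ range r, φ i = 0) (a : ℤ) (N : ℕ) :
    |∑ i ∈ range N, φ (a + i)| ≤ r * B := by
  have hB0 : 0 ≤ B := (abs_nonneg _).trans (hB 0)
  have h1 : N = (N / r) * r + N % r := by
    have := Nat.div_add_mod N r
    rw [mul_comm] at this
    exact this.symm
  rw [h1, sum_range_add, sum_blocks φ hφ, hs, mul_zero, zero_add]
  refine (abs_sum_le_sum_abs _ _).trans ?_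
  refine (sum_le_card_nsmul _ _ B (fun i _ => hB _)).trans ?_
  rw [card_range, nsmul_eq_mul]
  apply mul_le_mul_of_nonneg_right _ hB0
  exact_mod_cast (Nat.mod_lt N hr).le

end periodic

lemma sum_range_zmod (M : ℕ) [NeZero M] (G : ZMod M → ℝ) :
    ∑ s ∈ range M, G (s : ZMod M) = ∑ z, G z := by
  apply Finset.sum_nbij' (i := fun s : ℕ => (s : ZMod M)) (j := fun z : ZMod M => z.val)
  · intro a _; exact mem_univ _
  · intro z _; exact mem_range.mpr (ZMod.val_lt z)
  · intro a ha
    exact ZMod.val_cast_of_lt (mem_range.mp ha)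
  · intro z _
    exact ZMod.natCast_zmod_val z
  · intro a _; rfl

/-- sum over an affine progression modulo a prime -/
lemma sum_range_affine {p : ℕ} [hp : Fact p.Prime] (g : ZMod p → ℝ) (y u : ℤ)
    (hu : ¬ (p : ℤ) ∣ u) :
    ∑ s ∈ range p, g (((y + u * s : ℤ)) : ZMod p) = ∑ z, g z := by
  have hu0 : (u : ZMod p) ≠ 0 := by
    intro h
    exact hu ((ZMod.intCast_zmod_eq_zero_iff_dvd u p).mp h)
  have h1 := sum_range_zmod p (fun z => g ((y : ZMod p) + u * z))
  have h2 : ∑ z, g ((y : ZMod p) + u * z) = ∑ z, g z := by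
    exact Equiv.sum_comp ((Equiv.mulLeft₀ (u : ZMod p) hu0).trans (Equiv.addLeft (y : ZMod p))) g
  rw [← h2, ← h1]
  apply sum_congr rfl
  intro s _
  congr 1
  push_cast
  ring

/-! ### local functions -/

/-- number of forbidden classes modulo `p` -/
def nu (d p : ℕ) : ℕ := if p ∣ d then 1 else 2

/-- local value at admissible classes -/
noncomputable def hh (d p : ℕ) : ℝ := (nu d p : ℝ) / ((p : ℝ) - nu d p)

/-- the local function on `ZMod p` -/
noncomputable def tz (d p : ℕ) (z : ZMod p) : ℝ := if z = 0 ∨ z + d = 0 then -1 else hh d p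

/-- the local function on integers -/
noncomputable def tau (d p : ℕ) (n : ℤ) : ℝ := tz d p (n : ZMod p)

lemma tau_periodic (d p : ℕ) (n : ℤ) : tau d p (n + p) = tau d p n := by
  unfold tau; simp

lemma tau_eq (d p : ℕ) (n : ℤ) :
    tau d p n = if (p : ℤ) ∣ n ∨ (p : ℤ) ∣ n + d then -1 else hh d p := by
  unfold tau tz
  have h1 : ((n : ZMod p) = 0) ↔ (p : ℤ) ∣ n := ZMod.intCast_zmod_eq_zero_iff_dvd n p
  have h2 : ((n : ZMod p) + d = 0) ↔ (p : ℤ) ∣ n + d := by
    rw [← ZMod.intCast_zmod_eq_zero_iff_dvd (n + d) p]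
    push_cast
    rfl
  simp only [h1, h2]

lemma nu_lt {d p : ℕ} (hd : Even d) (hp : p.Prime) : nu d p < p := by
  unfold nu
  split_ifs with h
  · exact hp.one_lt
  · rcases hp.eq_two_or_odd with h2 | h2
    · exfalso; apply h; rw [h2]; exact hd.two_dvd
    · have := hp.two_le
      omega

lemma nu_pos (d p : ℕ) : 0 < nu d p := by unfold nu; split_ifs <;> norm_num

lemma card_bad {d p : ℕ} [hp : Fact p.Prime] :
    (univ.filter (fun z : ZMod p => z = 0 ∨ z + d = 0)).card = nu d p := by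
  have h1 : univ.filter (fun z : ZMod p => z = 0 ∨ z + d = 0) = {0, -(d : ZMod p)} := by
    ext z
    simp only [mem_filter, mem_univ, true_and, mem_insert, mem_singleton]
    rw [eq_neg_iff_add_eq_zero]
  rw [h1]
  unfold nu
  split_ifs with h
  · have : (d : ZMod p) = 0 := (ZMod.natCast_eq_zero_iff d p).mpr h
    rw [this]; simp
  · have : (d : ZMod p) ≠ 0 := fun h2 => h ((ZMod.natCast_eq_zero_iff d p).mp h2)
    rw [card_pair]
    intro h3
    exact this (neg_eq_zero.mp h3.symm)

/-- sum of a two-valued function -/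
lemma sum_two_valued {d p : ℕ} [hp : Fact p.Prime] (A B : ℝ) :
    ∑ z : ZMod p, (if z = 0 ∨ z + d = 0 then A else B) = nu d p * A + (p - nu d p) * B := by
  rw [sum_ite, sum_const, sum_const, card_bad]
  have h1 : (univ.filter (fun z : ZMod p => ¬ (z = 0 ∨ z + d = 0))).card = p - nu d p := by
    have h2 := card_filter_add_card_filter_not (s := (univ : Finset (ZMod p)))
      (fun z : ZMod p => z = 0 ∨ z + d = 0)
    rw [card_bad, card_univ, ZMod.card] at h2
    omega
  have h3 : nu d p ≤ p := by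
    have h2 := card_filter_le (univ : Finset (ZMod p)) (fun z : ZMod p => z = 0 ∨ z + d = 0)
    rw [card_bad, card_univ, ZMod.card] at h2
    exact h2
  rw [h1, nsmul_eq_mul, nsmul_eq_mul, Nat.cast_sub h3]

variable {d : ℕ}

lemma sum_tz (hd : Even d) {p : ℕ} [hp : Fact p.Prime] : ∑ z, tz d p z = 0 := by
  unfold tz
  rw [sum_two_valued]
  have h1 := nu_lt hd hp.out
  have h2 : ((p : ℝ) - nu d p) ≠ 0 := by
    have : (nu d p : ℝ) < p := by exact_mod_cast h1
    linarith
  unfold hh
  field_simp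
  ring

lemma sum_tz_sq (hd : Even d) {p : ℕ} [hp : Fact p.Prime] :
    ∑ z, tz d p z ^ 2 = p * hh d p := by
  have h0 : ∀ z : ZMod p, tz d p z ^ 2 = if z = 0 ∨ z + d = 0 then 1 else hh d p ^ 2 := by
    intro z
    unfold tz
    split_ifs <;> norm_num
  rw [sum_congr rfl (fun z _ => h0 z), sum_two_valued]
  have h1 := nu_lt hd hp.out
  have h2 : ((p : ℝ) - nu d p) ≠ 0 := by
    have : (nu d p : ℝ) < p := by exact_mod_cast h1
    linarith
  unfold hh
  field_simp
  ring

lemma sum_tau_affine (hd : Even d) {p : ℕ} (hp : p.Prime) (y u : ℤ) (hu : ¬ (p : ℤ) ∣ u) :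
    ∑ s ∈ range p, tau d p (y + u * s) = 0 := by
  have := Fact.mk hp
  rw [← sum_tz (p := p) hd, ← sum_range_affine (tz d p) y u hu]
  rfl

lemma sum_tau_sq_affine (hd : Even d) {p : ℕ} (hp : p.Prime) (y u : ℤ) (hu : ¬ (p : ℤ) ∣ u) :
    ∑ s ∈ range p, tau d p (y + u * s) ^ 2 = p * hh d p := by
  have := Fact.mk hp
  rw [← sum_tz_sq (p := p) hd, ← sum_range_affine (fun z => tz d p z ^ 2) y u hu]
  rfl

/-! ### products over sets of primes -/

/-- product of local functions -/
noncomputable def T (d : ℕ) (s : Finset ℕ) (n : ℤ) : ℝ := ∏ p ∈ s, tau d p n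

/-- modulus -/
def Ps (s : Finset ℕ) : ℕ := ∏ p ∈ s, p

lemma T_add_of_dvd {s : Finset ℕ} {n m : ℤ} (h : ∀ p ∈ s, (p : ℤ) ∣ m) :
    T d s (n + m) = T d s n := by
  unfold T
  apply prod_congr rfl
  intro p hp
  obtain ⟨c, hc⟩ := h p hp
  rw [hc]
  exact periodic_mul (tau d p) (tau_periodic d p) n c

lemma dvd_Ps {s : Finset ℕ} {p : ℕ} (hp : p ∈ s) : (p : ℤ) ∣ (Ps s : ℤ) := by
  exact_mod_cast dvd_prod_of_mem (fun p => p) hp

lemma T_periodic (s : Finset ℕ) (n : ℤ) : T d s (n + Ps s) = T d s n :=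
  T_add_of_dvd (fun _ hp => dvd_Ps hp)

lemma Ps_pos {s : Finset ℕ} (hs : ∀ p ∈ s, p.Prime) : 0 < Ps s :=
  prod_pos (fun p hp => (hs p hp).pos)

/-- extraction of one prime -/
lemma sum_extract {p P : ℕ} (α ψ : ℤ → ℝ) (A : ℝ) (hψ : ∀ n : ℤ, ψ (n + P) = ψ n)
    (hα : ∀ n : ℤ, ∑ s ∈ range p, α (n + P * s) = A) :
    ∑ n ∈ range (p * P), α n * ψ n = A * ∑ n ∈ range P, ψ n := by
  rw [sum_range_mul' (fun n => α n * ψ n) p P, sum_comm, mul_sum]
  apply sum_congr rfl
  intro i _
  rw [← hα i, sum_mul]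
  apply sum_congr rfl
  intro k _
  have h1 : (((k * P + i : ℕ)) : ℤ) = (i : ℤ) + P * k := by push_cast; ring
  rw [h1, periodic_mul ψ hψ]

lemma Ps_erase {s : Finset ℕ} {p : ℕ} (hp : p ∈ s) : Ps s = p * Ps (s.erase p) := by
  unfold Ps
  rw [mul_prod_erase s (fun p => p) hp]

lemma not_dvd_Ps {s : Finset ℕ} (hs : ∀ p ∈ s, p.Prime) {p : ℕ} (hp : p.Prime) (hps : p ∉ s) :
    ¬ (p : ℤ) ∣ (Ps s : ℤ) := by
  intro h
  have h1 : p ∣ Ps s := by exact_mod_cast h
  unfold Ps at h1
  rw [Prime.dvd_finsetProd_iff hp.prime] at h1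
  obtain ⟨q, hq, hpq⟩ := h1
  have := (Nat.prime_dvd_prime_iff_eq hp (hs q hq)).mp hpq
  rw [this] at hps
  exact hps hq

/-- vanishing of sums of `T` over nonconstant progressions -/
lemma sum_T_affine (hd : Even d) {s : Finset ℕ} (hs : ∀ p ∈ s, p.Prime) (x m : ℤ)
    (hm : ¬ (Ps s : ℤ) ∣ m) : ∑ k ∈ range (Ps s), T d s (x + m * k) = 0 := by
  -- some prime of `s` does not divide `m`
  obtain ⟨p, hps, hpm⟩ : ∃ p ∈ s, ¬ (p : ℤ) ∣ m := by
    by_contra hcon
    push Not at hcon
    apply hm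
    unfold Ps
    push_cast
    apply Finset.prod_dvd_of_coprime
    · intro a ha b hb hab
      exact Nat.isCoprime_iff_coprime.mpr ((Nat.coprime_primes (hs a ha) (hs b hb)).mpr hab)
    · exact hcon
  have hp := hs p hps
  have hnd := not_dvd_Ps (s := s.erase p) (fun q hq => hs q (mem_of_mem_erase hq)) hp
    (notMem_erase p s)
  rw [Ps_erase hps]
  have h1 : ∀ k : ℤ, T d s (x + m * k) = tau d p (x + m * k) * T d (s.erase p) (x + m * k) := by
    intro k
    unfold T
    rw [mul_prod_erase s (fun p => tau d p (x + m * k)) hps]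
  rw [sum_congr rfl (fun (k : ℕ) _ => h1 (k : ℤ))]
  rw [sum_extract (fun k => tau d p (x + m * k)) (fun k => T d (s.erase p) (x + m * k)) 0]
  · simp
  · intro n
    have : x + m * (n + (Ps (s.erase p) : ℤ)) = x + m * n + m * (Ps (s.erase p) : ℤ) := by ring
    rw [this]
    apply T_add_of_dvd
    intro q hq
    exact dvd_mul_of_dvd_right (dvd_Ps hq) m
  · intro n
    rw [← sum_tau_affine hd hp (x + m * n) (m * (Ps (s.erase p) : ℤ))]
    · apply sum_congr rfl
      intro k _
      congr 1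
      ring
    · intro h
      rcases (Nat.prime_iff_prime_int.mp hp).dvd_or_dvd h with h2 | h2
      · exact hpm h2
      · exact hnd h2

lemma sum_T_sq (hd : Even d) {s : Finset ℕ} (hs : ∀ p ∈ s, p.Prime) :
    ∑ n ∈ range (Ps s), T d s n ^ 2 = Ps s * ∏ p ∈ s, hh d p := by
  induction s using Finset.induction_on with
  | empty => simp [T, Ps]
  | insert p s hps ih =>
    have hp := hs p (mem_insert_self p s)
    have hs' : ∀ q ∈ s, q.Prime := fun q hq => hs q (mem_insert_of_mem hq)
    have hP : Ps (insert p s) = p * Ps s := by unfold Ps; rw [prod_insert hps]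
    have hT : ∀ n : ℤ, T d (insert p s) n ^ 2 = tau d p n ^ 2 * T d s n ^ 2 := by
      intro n; unfold T; rw [prod_insert hps]; ring
    rw [hP, sum_congr rfl (fun (n : ℕ) _ => hT (n : ℤ)),
      sum_extract (fun n => tau d p n ^ 2) (fun n => T d s n ^ 2) (p * hh d p)]
    · rw [ih hs', prod_insert hps]
      push_cast
      ring
    · intro n
      rw [T_periodic]
    · intro n
      exact sum_tau_sq_affine hd hp n _ (not_dvd_Ps hs' hp hps)

/-- cross terms vanish -/
lemma sum_T_cross (hd : Even d) {s s' : Finset ℕ} (hs : ∀ p ∈ s, p.Prime)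
    (hs' : ∀ p ∈ s', p.Prime) (hne : s ≠ s') (u v : ℤ) :
    ∑ n ∈ range (Ps s * Ps s'), T d s (n + u) * T d s' (n + v) = 0 := by
  -- one-sided version
  have key : ∀ (s s' : Finset ℕ), (∀ p ∈ s, p.Prime) → (∀ p ∈ s', p.Prime) → ∀ p ∈ s, p ∉ s' →
      ∀ u v : ℤ, ∑ n ∈ range (Ps s * Ps s'), T d s (n + u) * T d s' (n + v) = 0 := by
    intro s s' hs hs' p hps hps' u v
    have hp := hs p hps
    have hnd := not_dvd_Ps (s := s.erase p) (fun q hq => hs q (mem_of_mem_erase hq)) hp
      (notMem_erase p s)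
    have hnd' := not_dvd_Ps hs' hp hps'
    rw [Ps_erase hps, mul_assoc]
    have h1 : ∀ n : ℤ, T d s (n + u) * T d s' (n + v) =
        tau d p (n + u) * (T d (s.erase p) (n + u) * T d s' (n + v)) := by
      intro n
      have : T d s (n + u) = tau d p (n + u) * T d (s.erase p) (n + u) := by
        unfold T
        rw [mul_prod_erase s (fun p => tau d p (n + u)) hps]
      rw [this]; ring
    rw [sum_congr rfl (fun (n : ℕ) _ => h1 (n : ℤ))]
    rw [sum_extract (fun n => tau d p (n + u))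
      (fun n => T d (s.erase p) (n + u) * T d s' (n + v)) 0]
    · simp
    · intro n
      have e1 : n + ((Ps (s.erase p) * Ps s' : ℕ) : ℤ) + u =
          n + u + (Ps (s.erase p) * Ps s' : ℕ) := by ring
      have e2 : n + ((Ps (s.erase p) * Ps s' : ℕ) : ℤ) + v =
          n + v + (Ps (s.erase p) * Ps s' : ℕ) := by ring
      have a1 : T d (s.erase p) (n + u + (Ps (s.erase p) * Ps s' : ℕ)) =
          T d (s.erase p) (n + u) := by
        apply T_add_of_dvd
        intro q hq
        push_cast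
        exact dvd_mul_of_dvd_left (dvd_Ps hq) _
      have a2 : T d s' (n + v + (Ps (s.erase p) * Ps s' : ℕ)) = T d s' (n + v) := by
        apply T_add_of_dvd
        intro q hq
        push_cast
        exact dvd_mul_of_dvd_right (dvd_Ps hq) _
      rw [e1, e2, a1, a2]
    · intro n
      rw [← sum_tau_affine hd hp (n + u) ((Ps (s.erase p) * Ps s' : ℕ) : ℤ)]
      · apply sum_congr rfl
        intro k _
        congr 1
        ring
      · intro h
        push_cast at h
        rcases (Nat.prime_iff_prime_int.mp hp).dvd_or_dvd h with h2 | h2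
        · exact hnd h2
        · exact hnd' h2
  by_cases h : ∃ p ∈ s, p ∉ s'
  · obtain ⟨p, h1, h2⟩ := h
    exact key s s' hs hs' p h1 h2 u v
  · push Not at h
    have h2 : ∃ p ∈ s', p ∉ s := by
      by_contra hcon
      push Not at hcon
      exact hne (Subset.antisymm h hcon)
    obtain ⟨p, h3, h4⟩ := h2
    have := key s' s hs' hs p h3 h4 v u
    rw [mul_comm (Ps s)]
    rw [← this]
    apply sum_congr rfl
    intro n _
    ring

end Pool.Agent.PrimePairOmega
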