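import Pool.Agent.Lib_MP_92ef0c_nt.Local

/-! The truncated singular series model: its sums along progressions are, in mean square over the
modulus and the starting point, close to the main term. -/

set_option autoImplicit false

open Finset

namespace Pool.Agent.PrimePairOmega

variable {d : ℕ}

/-! ### sums of `T` along progressions -/

/-- sum of `T` along a progression of length `L` and difference `q` -/
noncomputable def SS (d : ℕ) (s : Finset ℕ) (L : ℕ) (q n : ℤ) : ℝ :=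
  ∑ j ∈ range L, T d s (n + j * q)

lemma SS_periodic_n (s : Finset ℕ) (L : ℕ) (q n : ℤ) : SS d s L q (n + Ps s) = SS d s L q n := by
  unfold SS
  apply sum_congr rfl
  intro j _
  rw [← T_periodic s (n + j * q)]
  congr 1; ring

lemma SS_add_of_dvd {s : Finset ℕ} {L : ℕ} {q n m : ℤ} (h : ∀ p ∈ s, (p : ℤ) ∣ m) :
    SS d s L q (n + m) = SS d s L q n := by
  unfold SS
  apply sum_congr rfl
  intro j _
  rw [← T_add_of_dvd (d := d) (n := n + j * q) h]
  congr 1; ring

lemma SS_periodic_q (s : Finset ℕ) (L : ℕ) (q n : ℤ) : SS d s L (q + Ps s) n = SS d s L q n := by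
  unfold SS
  apply sum_congr rfl
  intro j _
  have : n + (j : ℤ) * (q + Ps s) = (n + j * q) + j * (Ps s : ℤ) := by ring
  rw [this]
  apply T_add_of_dvd
  intro p hp
  exact dvd_mul_of_dvd_right (dvd_Ps hp) _

lemma SS_of_dvd {s : Finset ℕ} {L : ℕ} {q : ℤ} (h : ∀ p ∈ s, (p : ℤ) ∣ q) (n : ℤ) :
    SS d s L q n = L * T d s n := by
  unfold SS
  have : ∀ j ∈ range L, T d s (n + (j : ℤ) * q) = T d s n := by
    intro j _
    apply T_add_of_dvd
    intro p hp
    exact dvd_mul_of_dvd_right (h p hp) _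
  rw [sum_congr rfl this]
  simp

lemma SS_mod (hd : Even d) {s : Finset ℕ} (hs : ∀ p ∈ s, p.Prime) (L : ℕ) {q : ℤ}
    (hq : ¬ (Ps s : ℤ) ∣ q) (n : ℤ) : SS d s L q n = SS d s (L % Ps s) q n := by
  have hper : ∀ k : ℤ, T d s (n + (k + Ps s) * q) = T d s (n + k * q) := by
    intro k
    have : n + (k + Ps s) * q = (n + k * q) + q * (Ps s : ℤ) := by ring
    rw [this]
    apply T_add_of_dvd
    intro p hp
    exact dvd_mul_of_dvd_right (dvd_Ps hp) _
  unfold SS
  have h1 : L = (L / Ps s) * Ps s + L % Ps s := by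
    have := Nat.div_add_mod L (Ps s)
    rw [mul_comm] at this
    exact this.symm
  conv_lhs => rw [h1]
  rw [sum_range_add]
  have h2 : ∑ x ∈ range (L / Ps s * Ps s), T d s (n + (x : ℤ) * q) = 0 := by
    have h3 := sum_blocks (fun k => T d s (n + k * q)) hper 0 (L / Ps s)
    have h4 : ∑ i ∈ range (Ps s), T d s (n + (i : ℤ) * q) = 0 := by
      rw [← sum_T_affine hd hs n q hq]
      apply sum_congr rfl
      intro i _
      congr 1; ring
    rw [h4, mul_zero] at h3
    rw [← h3]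
    apply sum_congr rfl
    intro i _
    simp
  rw [h2, zero_add]
  apply sum_congr rfl
  intro i _
  have h5 : (((L / Ps s * Ps s + i : ℕ)) : ℤ) = (i : ℤ) + Ps s * ((L / Ps s : ℕ) : ℤ) := by
    push_cast; ring
  rw [h5]
  exact periodic_mul (fun k => T d s (n + k * q)) hper i _

/-- exact second moment -/
lemma second_moment (hd : Even d) {s : Finset ℕ} (hs : ∀ p ∈ s, p.Prime) {l : ℕ}
    (hl : l ≤ Ps s) :
    ∑ q ∈ range (Ps s), ∑ n ∈ range (Ps s), SS d s l q n ^ 2 =
      l * (Ps s * (Ps s * ∏ p ∈ s, hh d p)) := by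
  have h1 : ∀ q ∈ range (Ps s), ∑ n ∈ range (Ps s), SS d s l q n ^ 2 =
      ∑ j ∈ range l, ∑ j' ∈ range l, ∑ n ∈ range (Ps s),
        T d s n * T d s (n + ((j' : ℤ) - j) * q) := by
    intro q _
    have h2 : ∀ n : ℤ, SS d s l q n ^ 2 = ∑ j ∈ range l, ∑ j' ∈ range l,
        T d s (n + j * q) * T d s (n + j' * q) := by
      intro n
      unfold SS
      rw [sq, sum_mul_sum]
    rw [sum_congr rfl (fun (n : ℕ) _ => h2 (n : ℤ)), sum_comm]
    apply sum_congr rfl
    intro j _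
    rw [sum_comm]
    apply sum_congr rfl
    intro j' _
    have h3 := sum_period (fun n => T d s n * T d s (n + ((j' : ℤ) - j) * q)) (r := Ps s)
      (by
        intro n
        have e : n + (Ps s : ℤ) + ((j' : ℤ) - j) * q = n + ((j' : ℤ) - j) * q + Ps s := by ring
        simp only [e, T_periodic]) (j * q)
    rw [← h3]
    apply sum_congr rfl
    intro n _
    have e1 : (n : ℤ) + j * q = j * q + n := by ring
    have e2 : (n : ℤ) + j' * q = j * q + n + ((j' : ℤ) - j) * q := by ring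
    rw [e1, e2]
  rw [sum_congr rfl h1, sum_comm]
  have h4 : ∀ j ∈ range l, ∑ q ∈ range (Ps s), ∑ j' ∈ range l, ∑ n ∈ range (Ps s),
      T d s n * T d s (n + ((j' : ℤ) - j) * q) = Ps s * (Ps s * ∏ p ∈ s, hh d p) := by
    intro j hj
    rw [sum_comm]
    rw [sum_eq_single j]
    · simp only [sub_self, zero_mul, add_zero]
      rw [sum_const, card_range, nsmul_eq_mul, ← sum_T_sq hd hs]
      congr 1
      apply sum_congr rfl
      intro n _
      ring
    · intro j' hj' hne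
      rw [sum_comm]
      apply sum_eq_zero
      intro n _
      rw [← mul_sum]
      have h5 : ∑ q ∈ range (Ps s), T d s (n + ((j' : ℤ) - j) * q) = 0 := by
        apply sum_T_affine hd hs
        intro h
        have h6 : ((j' : ℤ) - j) = 0 := by
          apply Int.eq_zero_of_abs_lt_dvd h
          rw [mem_range] at hj hj'
          rw [abs_lt]
          constructor <;> omega
        apply hne
        omega
      rw [h5, mul_zero]
    · intro h; exact absurd hj h
  rw [sum_congr rfl h4, sum_const, card_range, nsmul_eq_mul]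

lemma hh_nonneg (hd : Even d) {p : ℕ} (hp : p.Prime) : 0 ≤ hh d p := by
  have h1 := nu_lt hd hp
  have h2 : (nu d p : ℝ) < p := by exact_mod_cast h1
  unfold hh
  apply div_nonneg (Nat.cast_nonneg _)
  linarith

lemma hh_le (hd : Even d) {p : ℕ} (hp : p.Prime) : hh d p ≤ p := by
  have h1 := nu_lt hd hp
  have h2 : (nu d p : ℝ) + 1 ≤ p := by exact_mod_cast h1
  have h3 : (nu d p : ℝ) ≤ 2 := by unfold nu; split_ifs <;> norm_num
  have h4 : (2 : ℝ) ≤ p := by exact_mod_cast hp.two_le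
  unfold hh
  rw [div_le_iff₀ (by linarith)]
  nlinarith

lemma abs_tau_le (hd : Even d) {p : ℕ} (hp : p.Prime) (n : ℤ) : |tau d p n| ≤ p := by
  have h4 : (2 : ℝ) ≤ p := by exact_mod_cast hp.two_le
  rw [tau_eq]
  split_ifs
  · rw [abs_neg, abs_one]; linarith
  · rw [abs_of_nonneg (hh_nonneg hd hp)]; exact hh_le hd hp

lemma abs_T_le (hd : Even d) {s : Finset ℕ} (hs : ∀ p ∈ s, p.Prime) (n : ℤ) :
    |T d s n| ≤ Ps s := by
  unfold T Ps
  rw [abs_prod]
  push_cast
  exact prod_le_prod (fun _ _ => abs_nonneg _) (fun p hp => abs_tau_le hd (hs p hp) n)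

lemma abs_SS_le (hd : Even d) {s : Finset ℕ} (hs : ∀ p ∈ s, p.Prime) (L : ℕ) (q n : ℤ) :
    |SS d s L q n| ≤ L * Ps s := by
  unfold SS
  refine (abs_sum_le_sum_abs _ _).trans ?_
  refine (sum_le_card_nsmul _ _ (Ps s : ℝ) (fun j _ => abs_T_le hd hs _)).trans ?_
  rw [card_range, nsmul_eq_mul]

/-- diagonal terms -/
lemma diag_bound (hd : Even d) {s : Finset ℕ} (hs : ∀ p ∈ s, p.Prime) {Q N L : ℕ}
    (hsQ : Ps s ≤ Q) (hsN : Ps s ≤ N) (b : ℤ) :
    ∑ q ∈ Icc 1 Q, (if (Ps s : ℤ) ∣ (q : ℤ) then 0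
      else ∑ i ∈ range N, SS d s L q (b + i) ^ 2) ≤
      4 * (Q : ℝ) ^ 2 * N * ∏ p ∈ s, hh d p := by
  have hP := Ps_pos hs
  have hP' : (0 : ℝ) < Ps s := by exact_mod_cast hP
  set h := ∏ p ∈ s, hh d p with hhdef
  have hh0 : 0 ≤ h := prod_nonneg (fun p hp => hh_nonneg hd (hs p hp))
  set l := L % Ps s with hldef
  have hl : l ≤ Ps s := (Nat.mod_lt L hP).le
  have hl' : (l : ℝ) ≤ Ps s := by exact_mod_cast hl
  -- inner sum
  have h1 : ∀ q : ℤ, ¬ (Ps s : ℤ) ∣ q → ∑ i ∈ range N, SS d s L q (b + i) ^ 2 ≤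
      ((N : ℝ) / Ps s + 1) * ∑ n ∈ range (Ps s), SS d s l q n ^ 2 := by
    intro q hq
    rw [sum_congr rfl (fun (i : ℕ) _ => by rw [SS_mod hd hs L hq (b + i)])]
    exact sum_window_le (fun n => SS d s l q n ^ 2) hP
      (fun n => by simp only [SS_periodic_n]) (fun n => sq_nonneg _) b N
  have h2 : ∑ q ∈ Icc 1 Q, (if (Ps s : ℤ) ∣ (q : ℤ) then 0
      else ∑ i ∈ range N, SS d s L q (b + i) ^ 2) ≤
      ∑ q ∈ Icc 1 Q, ((N : ℝ) / Ps s + 1) * ∑ n ∈ range (Ps s), SS d s l q n ^ 2 := by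
    apply sum_le_sum
    intro q _
    split_ifs with hq
    · apply mul_nonneg (by positivity)
      exact sum_nonneg (fun _ _ => sq_nonneg _)
    · exact h1 q hq
  have h3 : ∑ q ∈ Icc 1 Q, ∑ n ∈ range (Ps s), SS d s l q n ^ 2 ≤
      ((Q : ℝ) / Ps s + 1) * ∑ q ∈ range (Ps s), ∑ n ∈ range (Ps s), SS d s l q n ^ 2 := by
    have h4 := sum_window_le (fun q => ∑ n ∈ range (Ps s), SS d s l q n ^ 2) hP
      (fun q => by simp only [SS_periodic_q]) (fun q => sum_nonneg (fun _ _ => sq_nonneg _)) 1 Q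
    refine le_trans (le_of_eq ?_) h4
    have h5 : Icc 1 Q = (range Q).image (fun i => 1 + i) := by
      ext x
      simp only [mem_Icc, mem_image, mem_range]
      constructor
      · rintro ⟨a, b⟩; exact ⟨x - 1, by omega, by omega⟩
      · rintro ⟨i, hi, rfl⟩; omega
    rw [h5, sum_image (by intro x _ y _ hxy; simpa using hxy)]
    apply sum_congr rfl
    intro i _
    push_cast
    rfl
  rw [second_moment hd hs hl] at h3
  rw [← mul_sum] at h2
  have h6 : (N : ℝ) / Ps s + 1 ≤ 2 * N / Ps s := by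
    have : (1 : ℝ) ≤ N / Ps s := by
      rw [le_div_iff₀ hP', one_mul]; exact_mod_cast hsN
    have h7 : 2 * (N : ℝ) / Ps s = N / Ps s + N / Ps s := by ring
    linarith
  have h7 : (Q : ℝ) / Ps s + 1 ≤ 2 * Q / Ps s := by
    have : (1 : ℝ) ≤ Q / Ps s := by
      rw [le_div_iff₀ hP', one_mul]; exact_mod_cast hsQ
    have h7 : 2 * (Q : ℝ) / Ps s = Q / Ps s + Q / Ps s := by ring
    linarith
  refine h2.trans ?_
  have hsQ' : (Ps s : ℝ) ≤ Q := by exact_mod_cast hsQ
  calc ((N : ℝ) / Ps s + 1) * ∑ q ∈ Icc 1 Q, ∑ n ∈ range (Ps s), SS d s l q n ^ 2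
      ≤ (2 * N / Ps s) * ((2 * Q / Ps s) * (Ps s * (Ps s * (Ps s * h)))) := by
        apply mul_le_mul h6 _ (sum_nonneg fun _ _ => sum_nonneg fun _ _ => sq_nonneg _)
          (by positivity)
        refine h3.trans ?_
        apply mul_le_mul h7 _ (by positivity) (by positivity)
        exact mul_le_mul_of_nonneg_right hl' (by positivity)
    _ = 4 * Q * N * h * Ps s := by field_simp; ring
    _ ≤ 4 * Q * N * h * Q := by
        apply mul_le_mul_of_nonneg_left hsQ' (by positivity)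
    _ = 4 * (Q : ℝ) ^ 2 * N * h := by ring

/-- cross terms -/
lemma cross_bound (hd : Even d) {s s' : Finset ℕ} (hs : ∀ p ∈ s, p.Prime)
    (hs' : ∀ p ∈ s', p.Prime) (hne : s ≠ s') {Q N L : ℕ} (hsQ : Ps s ≤ Q) (hsQ' : Ps s' ≤ Q)
    (hL : L ≤ Q) (b q : ℤ) :
    |∑ i ∈ range N, SS d s L q (b + i) * SS d s' L q (b + i)| ≤ (Q : ℝ) ^ 6 := by
  have hP : 0 < Ps s * Ps s' := Nat.mul_pos (Ps_pos hs) (Ps_pos hs')
  have h1 := abs_sum_window_le (fun n => SS d s L q n * SS d s' L q n) (r := Ps s * Ps s') hP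
    (by
      intro n
      have a1 : SS d s L q (n + (Ps s * Ps s' : ℕ)) = SS d s L q n := by
        apply SS_add_of_dvd
        intro p hp
        push_cast
        exact dvd_mul_of_dvd_left (dvd_Ps hp) _
      have a2 : SS d s' L q (n + (Ps s * Ps s' : ℕ)) = SS d s' L q n := by
        apply SS_add_of_dvd
        intro p hp
        push_cast
        exact dvd_mul_of_dvd_right (dvd_Ps hp) _
      simp only [a1, a2])
    (B := (L * Ps s) * (L * Ps s'))
    (by
      intro n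
      rw [abs_mul]
      exact mul_le_mul (abs_SS_le hd hs L q n) (abs_SS_le hd hs' L q n) (abs_nonneg _)
        (by positivity))
    (by
      have h2 : ∀ n : ℤ, SS d s L q n * SS d s' L q n = ∑ j ∈ range L, ∑ j' ∈ range L,
          T d s (n + j * q) * T d s' (n + j' * q) := by
        intro n
        unfold SS
        rw [sum_mul_sum]
      rw [sum_congr rfl (fun (n : ℕ) _ => h2 (n : ℤ)), sum_comm]
      apply sum_eq_zero
      intro j _
      rw [sum_comm]
      apply sum_eq_zero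
      intro j' _
      exact sum_T_cross hd hs hs' hne _ _)
    b N
  refine h1.trans ?_
  have e1 : (Ps s : ℝ) ≤ Q := by exact_mod_cast hsQ
  have e2 : (Ps s' : ℝ) ≤ Q := by exact_mod_cast hsQ'
  have e3 : (L : ℝ) ≤ Q := by exact_mod_cast hL
  push_cast
  calc (Ps s : ℝ) * Ps s' * (L * Ps s * (L * Ps s'))
      ≤ (Q * Q) * ((Q * Q) * (Q * Q)) := by
        apply mul_le_mul (mul_le_mul e1 e2 (by positivity) (by positivity)) _ (by positivity)
          (by positivity)
        apply mul_le_mul (mul_le_mul e3 e1 (by positivity) (by positivity))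
          (mul_le_mul e3 e2 (by positivity) (by positivity)) (by positivity) (by positivity)
    _ = (Q : ℝ) ^ 6 := by ring

/-! ### the index set -/

/-- finite sets of primes with product at most `Q` -/
def RR (Q : ℕ) : Finset (Finset ℕ) :=
  (((range (Q + 1)).filter Nat.Prime).powerset).filter (fun s => Ps s ≤ Q)

lemma mem_RR {Q : ℕ} {s : Finset ℕ} (hs : s ∈ RR Q) : (∀ p ∈ s, p.Prime) ∧ Ps s ≤ Q := by
  unfold RR at hs
  rw [mem_filter, mem_powerset] at hs
  exact ⟨fun p hp => (mem_filter.mp (hs.1 hp)).2, hs.2⟩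

lemma Ps_injOn (Q : ℕ) : Set.InjOn Ps (RR Q : Set (Finset ℕ)) := by
  intro s hs t ht hst
  have h1 := Nat.primeFactors_prod (mem_RR hs).1
  have h2 := Nat.primeFactors_prod (mem_RR ht).1
  unfold Ps at hst
  rw [← h1, ← h2, hst]

lemma card_RR (Q : ℕ) : (RR Q).card ≤ Q := by
  have h1 : (RR Q).card ≤ (Icc 1 Q).card := by
    apply card_le_card_of_injOn Ps _ (Ps_injOn Q)
    intro s hs
    rw [coe_Icc]
    exact ⟨Ps_pos (mem_RR hs).1, (mem_RR hs).2⟩
  simpa using h1

/-- the deviation of the model from the main term -/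
noncomputable def EE (d Q L : ℕ) (q : ℕ) (n : ℤ) : ℝ :=
  ∑ s ∈ (RR Q).filter (fun s => ¬ (Ps s : ℤ) ∣ (q : ℤ)), SS d s L q n

/-- `∑ h(r)` over the index set -/
noncomputable def HH (d Q : ℕ) : ℝ := ∑ s ∈ RR Q, ∏ p ∈ s, hh d p

/-- Mean square bound for the deviation. -/
theorem mean_square_EE (hd : Even d) {Q N L : ℕ} (hQN : Q ≤ N) (hL : L ≤ Q) (b : ℤ) :
    ∑ q ∈ Icc 1 Q, ∑ i ∈ range N, EE d Q L q (b + i) ^ 2 ≤
      4 * (Q : ℝ) ^ 2 * N * HH d Q + (Q : ℝ) ^ 9 := by
  have h1 : ∀ q ∈ Icc 1 Q, ∑ i ∈ range N, EE d Q L q (b + i) ^ 2 ≤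
      ∑ s ∈ RR Q, (if (Ps s : ℤ) ∣ (q : ℤ) then 0 else ∑ i ∈ range N, SS d s L q (b + i) ^ 2)
        + (Q : ℝ) ^ 8 := by
    intro q _
    have h2 : ∑ i ∈ range N, EE d Q L q (b + i) ^ 2 =
        ∑ s ∈ (RR Q).filter (fun s => ¬ (Ps s : ℤ) ∣ (q : ℤ)),
          ∑ s' ∈ (RR Q).filter (fun s => ¬ (Ps s : ℤ) ∣ (q : ℤ)),
            ∑ i ∈ range N, SS d s L q (b + i) * SS d s' L q (b + i) := by
      have h3 : ∀ i : ℤ, EE d Q L q (b + i) ^ 2 =
          ∑ s ∈ (RR Q).filter (fun s => ¬ (Ps s : ℤ) ∣ (q : ℤ)),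
          ∑ s' ∈ (RR Q).filter (fun s => ¬ (Ps s : ℤ) ∣ (q : ℤ)),
            SS d s L q (b + i) * SS d s' L q (b + i) := by
        intro i
        unfold EE
        rw [sq, sum_mul_sum]
      rw [sum_congr rfl (fun (i : ℕ) _ => h3 (i : ℤ)), sum_comm]
      apply sum_congr rfl
      intro s _
      rw [sum_comm]
    rw [h2]
    have h4 : ∀ s ∈ (RR Q).filter (fun s => ¬ (Ps s : ℤ) ∣ (q : ℤ)),
        ∑ s' ∈ (RR Q).filter (fun s => ¬ (Ps s : ℤ) ∣ (q : ℤ)),
            ∑ i ∈ range N, SS d s L q (b + i) * SS d s' L q (b + i) ≤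
        ∑ i ∈ range N, SS d s L q (b + i) ^ 2 + (Q : ℝ) ^ 7 := by
      intro s hs
      rw [← add_sum_erase _ _ hs]
      apply add_le_add
      · apply le_of_eq
        apply sum_congr rfl
        intro i _
        ring
      · have hsm := mem_RR (mem_filter.mp hs).1
        have h5 : ∀ s' ∈ ((RR Q).filter (fun s => ¬ (Ps s : ℤ) ∣ (q : ℤ))).erase s,
            ∑ i ∈ range N, SS d s L q (b + i) * SS d s' L q (b + i) ≤ (Q : ℝ) ^ 6 := by
          intro s' hs'
          have hne := ne_of_mem_erase hs'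
          have hsm' := mem_RR (mem_filter.mp (mem_of_mem_erase hs')).1
          exact (le_abs_self _).trans
            (cross_bound hd hsm.1 hsm'.1 hne.symm hsm.2 hsm'.2 hL b q)
        refine (sum_le_card_nsmul _ _ _ h5).trans ?_
        rw [nsmul_eq_mul]
        have h6 : ((((RR Q).filter (fun s => ¬ (Ps s : ℤ) ∣ (q : ℤ))).erase s).card : ℝ) ≤ Q := by
          exact_mod_cast (card_le_card ((erase_subset _ _).trans (filter_subset _ _))).trans
            (card_RR Q)
        calc ((((RR Q).filter (fun s => ¬ (Ps s : ℤ) ∣ (q : ℤ))).erase s).card : ℝ) * (Q : ℝ) ^ 6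
            ≤ Q * (Q : ℝ) ^ 6 := mul_le_mul_of_nonneg_right h6 (by positivity)
          _ = (Q : ℝ) ^ 7 := by ring
    refine (sum_le_sum h4).trans ?_
    rw [sum_add_distrib]
    apply add_le_add
    · rw [sum_filter]
      apply le_of_eq
      apply sum_congr rfl
      intro s _
      by_cases h : (Ps s : ℤ) ∣ (q : ℤ) <;> simp [h]
    · rw [sum_const, nsmul_eq_mul]
      have h6 : (((RR Q).filter (fun s => ¬ (Ps s : ℤ) ∣ (q : ℤ))).card : ℝ) ≤ Q := by
        exact_mod_cast (card_le_card (filter_subset _ _)).trans (card_RR Q)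
      calc (((RR Q).filter (fun s => ¬ (Ps s : ℤ) ∣ (q : ℤ))).card : ℝ) * (Q : ℝ) ^ 7
          ≤ Q * (Q : ℝ) ^ 7 := mul_le_mul_of_nonneg_right h6 (by positivity)
        _ = (Q : ℝ) ^ 8 := by ring
  refine (sum_le_sum h1).trans ?_
  rw [sum_add_distrib, sum_comm]
  apply add_le_add
  · unfold HH
    rw [mul_sum]
    apply sum_le_sum
    intro s hs
    have hsm := mem_RR hs
    exact diag_bound hd hsm.1 hsm.2 (hsm.2.trans hQN) b
  · rw [sum_const, Nat.card_Icc, nsmul_eq_mul]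
    apply le_of_eq
    simp only [Nat.add_sub_cancel]
    ring

end Pool.Agent.PrimePairOmega
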