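import Pool.Agent.Lib_MP_92ef0c_nt.Model

/-! The density of admissible classes and the bound for the truncated singular series. -/

set_option autoImplicit false

open Finset

namespace Pool.Agent.PrimePairOmega

variable {d : ℕ}

/-- number of admissible classes modulo `q` -/
def adm (d q : ℕ) : ℕ :=
  ((range q).filter (fun A => Nat.Coprime A q ∧ Nat.Coprime (A + d) q)).card

/-- local density at `n` -/
noncomputable def rho (d q : ℕ) (n : ℤ) : ℝ := ∏ p ∈ q.primeFactors, (1 + tau d p n)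

/-- reciprocal density -/
noncomputable def Cq (d q : ℕ) : ℝ := ∏ p ∈ q.primeFactors, (1 + hh d p)

lemma rho_eq {q : ℕ} (hq : 0 < q) (n : ℕ) :
    rho d q n = if Nat.Coprime n q ∧ Nat.Coprime (n + d) q then Cq d q else 0 := by
  split_ifs with h
  · unfold rho Cq
    apply prod_congr rfl
    intro p hp
    have hpp := Nat.prime_of_mem_primeFactors hp
    have hpq := Nat.dvd_of_mem_primeFactors hp
    rw [tau_eq, if_neg]
    intro h1
    rcases h1 with h1 | h1
    · have h2 : p ∣ n := by exact_mod_cast h1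
      exact hpp.one_lt.ne' (Nat.eq_one_of_dvd_coprimes h.1 h2 hpq)
    · have h2 : p ∣ n + d := by exact_mod_cast h1
      exact hpp.one_lt.ne' (Nat.eq_one_of_dvd_coprimes h.2 h2 hpq)
  · have h1 : ∃ p, p.Prime ∧ p ∣ q ∧ ((p : ℤ) ∣ (n : ℤ) ∨ (p : ℤ) ∣ (n : ℤ) + d) := by
      rw [not_and_or] at h
      rcases h with h | h
      · obtain ⟨p, hp, h2, h3⟩ := Nat.Prime.not_coprime_iff_dvd.mp h
        exact ⟨p, hp, h3, Or.inl (by exact_mod_cast h2)⟩
      · obtain ⟨p, hp, h2, h3⟩ := Nat.Prime.not_coprime_iff_dvd.mp h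
        exact ⟨p, hp, h3, Or.inr (by exact_mod_cast h2)⟩
    obtain ⟨p, hp, hpq, h2⟩ := h1
    unfold rho
    apply prod_eq_zero (Nat.mem_primeFactors.mpr ⟨hp, hpq, hq.ne'⟩)
    rw [tau_eq, if_pos h2]
    ring

lemma rho_expand (q : ℕ) (n : ℤ) : rho d q n = ∑ s ∈ q.primeFactors.powerset, T d s n := by
  unfold rho T
  rw [prod_one_add]

lemma Ps_dvd {q : ℕ} {s : Finset ℕ} (hs : s ⊆ q.primeFactors) : Ps s ∣ q := by
  unfold Ps
  exact (prod_dvd_prod_of_subset s q.primeFactors (fun p => p) hs).trans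
    (Nat.prod_primeFactors_dvd q)

lemma sum_rho (hd : Even d) (q : ℕ) : ∑ n ∈ range q, rho d q n = q := by
  rw [sum_congr rfl (fun (n : ℕ) _ => rho_expand q (n : ℤ)), sum_comm]
  rw [sum_eq_single (∅ : Finset ℕ)]
  · simp [T]
  · intro s hs hne
    rw [mem_powerset] at hs
    have hsp : ∀ p ∈ s, p.Prime := fun p hp => Nat.prime_of_mem_primeFactors (hs hp)
    obtain ⟨m, hm⟩ := Ps_dvd hs
    have h1 := sum_blocks (T d s) (T_periodic s) 0 m
    simp only [zero_add] at h1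
    rw [hm, mul_comm, h1]
    have h2 : ∑ i ∈ range (Ps s), T d s i = 0 := by
      have h3 := sum_T_affine hd hsp 0 1 (by
        intro h4
        have h5 : (Ps s : ℤ) = 1 := Int.eq_one_of_dvd_one (by positivity) h4
        obtain ⟨p, hp⟩ := nonempty_iff_ne_empty.mpr hne
        have h6 : (p : ℤ) ∣ 1 := h5 ▸ dvd_Ps hp
        have h7 : p ∣ 1 := by exact_mod_cast h6
        exact (hsp p hp).one_lt.ne' (Nat.dvd_one.mp h7))
      rw [← h3]
      apply sum_congr rfl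
      intro i _
      congr 1; ring
    rw [h2, mul_zero]
  · intro h
    exact absurd (empty_mem_powerset _) h

/-- `C_q |φ_d(q)| = q` -/
lemma Cq_mul_adm (hd : Even d) {q : ℕ} (hq : 0 < q) : Cq d q * adm d q = q := by
  rw [← sum_rho hd q, sum_congr rfl (fun (n : ℕ) _ => rho_eq (d := d) hq n)]
  rw [← sum_filter, sum_const, nsmul_eq_mul, mul_comm]
  rfl

lemma Cq_nonneg (hd : Even d) (q : ℕ) : 0 ≤ Cq d q :=
  prod_nonneg (fun p hp => by
    have := hh_nonneg hd (Nat.prime_of_mem_primeFactors hp)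
    linarith)

lemma adm_pos (hd : Even d) {q : ℕ} (hq : 0 < q) : (0 : ℝ) < adm d q := by
  have h1 := Cq_mul_adm hd hq
  have h2 : (0 : ℝ) < q := by exact_mod_cast hq
  by_contra h
  have h3 : (adm d q : ℝ) = 0 := le_antisymm (not_lt.mp h) (Nat.cast_nonneg _)
  rw [h3, mul_zero] at h1
  linarith

lemma Cq_eq (hd : Even d) {q : ℕ} (hq : 0 < q) : Cq d q = q / adm d q := by
  rw [eq_div_iff (adm_pos hd hq).ne']
  exact Cq_mul_adm hd hq

/-- per-prime bound -/
lemma one_add_hh_sq_le (hd : Even d) {p : ℕ} (hp : p.Prime) :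
    (1 + hh d p) ^ 2 ≤ (if p = 2 then 2 else if p = 3 then 3 else 1) * p := by
  have h1 := nu_lt hd hp
  have h2 : (nu d p : ℝ) < p := by exact_mod_cast h1
  have h3 : 1 + hh d p = p / (p - nu d p) := by
    unfold hh
    have : (p : ℝ) - nu d p ≠ 0 := by linarith
    field_simp
    ring
  rw [h3]
  by_cases hp2 : p = 2
  · subst hp2
    have : nu d 2 = 1 := by unfold nu; rw [if_pos hd.two_dvd]
    rw [this]
    norm_num
  by_cases hp3 : p = 3
  · subst hp3
    have h4 : (nu d 3 : ℝ) ≤ 2 := by unfold nu; split_ifs <;> norm_num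
    rw [if_neg (by norm_num), if_pos rfl]
    have h5 : ((3 : ℕ) : ℝ) / (((3 : ℕ) : ℝ) - nu d 3) ≤ 3 := by
      push_cast at h2 ⊢
      rw [div_le_iff₀ (by linarith)]
      linarith
    have h6 : 0 ≤ ((3 : ℕ) : ℝ) / (((3 : ℕ) : ℝ) - nu d 3) := by
      apply div_nonneg (by norm_num)
      linarith
    push_cast at h5 h6 ⊢
    nlinarith
  · rw [if_neg hp2, if_neg hp3, one_mul]
    have hp5 : 5 ≤ p := by
      have h7 := hp.two_le
      have h8 : p ≠ 4 := by
        rintro rfl; exact absurd hp (by norm_num)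
      omega
    have hp5' : (5 : ℝ) ≤ p := by exact_mod_cast hp5
    have h4 : (nu d p : ℝ) ≤ 2 := by unfold nu; split_ifs <;> norm_num
    rw [div_pow, div_le_iff₀ (by nlinarith)]
    have h5 : (p : ℝ) - 2 ≤ p - nu d p := by linarith
    have h6 : ((p : ℝ) - 2) ^ 2 ≤ (p - nu d p) ^ 2 := pow_le_pow_left₀ (by linarith) h5 2
    have h7 : (p : ℝ) ≤ (p - 2) ^ 2 := by nlinarith
    calc (p : ℝ) ^ 2 = p * p := by ring
      _ ≤ p * (p - nu d p) ^ 2 := mul_le_mul_of_nonneg_left (h7.trans h6) (by positivity)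

lemma Cq_sq_le (hd : Even d) {q : ℕ} (hq : 0 < q) : Cq d q ^ 2 ≤ 6 * q := by
  set c : ℕ → ℝ := fun p => if p = 2 then 2 else if p = 3 then 3 else 1 with hc
  have hc1 : ∀ p, 1 ≤ c p := by
    intro p; simp only [hc]; split_ifs <;> norm_num
  have h1 : Cq d q ^ 2 ≤ ∏ p ∈ q.primeFactors, (c p * p) := by
    unfold Cq
    rw [← prod_pow]
    apply prod_le_prod (fun _ _ => sq_nonneg _)
    intro p hp
    exact one_add_hh_sq_le hd (Nat.prime_of_mem_primeFactors hp)
  refine h1.trans ?_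
  rw [prod_mul_distrib]
  have h2 : ∏ p ∈ q.primeFactors, c p ≤ 6 := by
    have h3 : ∏ p ∈ q.primeFactors, c p ≤ ∏ p ∈ q.primeFactors ∪ {2, 3}, c p :=
      prod_le_prod_of_subset_of_one_le subset_union_left (fun i _ => by linarith [hc1 i])
        (fun i _ _ => hc1 i)
    refine h3.trans ?_
    have h4 : ∏ p ∈ q.primeFactors ∪ {2, 3}, c p = ∏ p ∈ ({2, 3} : Finset ℕ), c p := by
      symm
      apply prod_subset subset_union_right
      intro p _ hp
      simp only [mem_insert, mem_singleton, not_or] at hp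
      simp only [hc, if_neg hp.1, if_neg hp.2]
    rw [h4]
    simp only [hc]
    norm_num
  have h3 : ∏ p ∈ q.primeFactors, (p : ℝ) ≤ q := by
    have h4 : ((∏ p ∈ q.primeFactors, p : ℕ) : ℝ) ≤ q := by
      exact_mod_cast Nat.le_of_dvd hq (Nat.prod_primeFactors_dvd q)
    push_cast at h4
    exact h4
  exact mul_le_mul h2 h3 (prod_nonneg fun _ _ => Nat.cast_nonneg _) (by norm_num)

/-- the index set of divisors -/
lemma filter_RR {Q q : ℕ} (hq : 0 < q) (hqQ : q ≤ Q) :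
    (RR Q).filter (fun s => (Ps s : ℤ) ∣ (q : ℤ)) = q.primeFactors.powerset := by
  ext s
  rw [mem_filter, mem_powerset]
  constructor
  · rintro ⟨h1, h2⟩ p hp
    have h3 := mem_RR h1
    rw [Nat.mem_primeFactors]
    refine ⟨h3.1 p hp, ?_, hq.ne'⟩
    have : (p : ℤ) ∣ (q : ℤ) := (dvd_Ps hp).trans h2
    exact_mod_cast this
  · intro h
    have h1 := Ps_dvd h
    refine ⟨?_, by exact_mod_cast h1⟩
    unfold RR
    rw [mem_filter, mem_powerset]
    refine ⟨?_, (Nat.le_of_dvd hq h1).trans hqQ⟩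
    intro p hp
    have h2 := h hp
    rw [mem_filter, mem_range]
    have h3 := Nat.le_of_dvd hq (Nat.dvd_of_mem_primeFactors h2)
    exact ⟨by omega, Nat.prime_of_mem_primeFactors h2⟩

/-- the model (without the factor `κ`) -/
noncomputable def gg (d Q : ℕ) (n : ℤ) : ℝ := ∑ s ∈ RR Q, T d s n

lemma sum_gg {Q q : ℕ} (hq : 0 < q) (hqQ : q ≤ Q) (L : ℕ) (n : ℤ) :
    ∑ j ∈ range L, gg d Q (n + j * q) = L * rho d q n + EE d Q L q n := by
  unfold gg
  rw [sum_comm]
  have h1 : ∑ s ∈ RR Q, ∑ j ∈ range L, T d s (n + (j : ℤ) * q) = ∑ s ∈ RR Q, SS d s L q n := rfl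
  rw [h1, ← sum_filter_add_sum_filter_not (RR Q) (fun s => (Ps s : ℤ) ∣ (q : ℤ))]
  congr 1
  rw [filter_RR hq hqQ, rho_expand, mul_sum]
  apply sum_congr rfl
  intro s hs
  apply SS_of_dvd
  intro p hp
  rw [mem_powerset] at hs
  exact_mod_cast Nat.dvd_of_mem_primeFactors (hs hp)

lemma abs_gg_le (hd : Even d) (Q : ℕ) (n : ℤ) : |gg d Q n| ≤ (Q : ℝ) ^ 2 := by
  unfold gg
  refine (abs_sum_le_sum_abs _ _).trans ?_
  refine (sum_le_card_nsmul _ _ (Q : ℝ) (fun s hs => ?_)).trans ?_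
  · have h := mem_RR hs
    refine (abs_T_le hd h.1 n).trans ?_
    exact_mod_cast h.2
  · rw [nsmul_eq_mul, sq]
    exact mul_le_mul_of_nonneg_right (by exact_mod_cast card_RR Q) (by positivity)

/-- at integers free of small prime factors (for `n` and `n + d`) the model is `HH` -/
lemma gg_eq (Q : ℕ) (n : ℤ) (h : ∀ p, p.Prime → p ≤ Q → ¬ (p : ℤ) ∣ n ∧ ¬ (p : ℤ) ∣ n + d) :
    gg d Q n = HH d Q := by
  unfold gg HH T
  apply sum_congr rfl
  intro s hs
  apply prod_congr rfl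
  intro p hp
  unfold RR at hs
  rw [mem_filter, mem_powerset] at hs
  have h1 := hs.1 hp
  rw [mem_filter, mem_range] at h1
  have h2 := h p h1.2 (by omega)
  rw [tau_eq, if_neg]
  rintro (h3 | h3)
  · exact h2.1 h3
  · exact h2.2 h3

/-! ### bound for `HH` -/

/-- generic sum over the index set -/
noncomputable def Phi (Q : ℕ) (a : ℕ → ℝ) : ℝ := ∑ s ∈ RR Q, ∏ p ∈ s, a p

lemma Phi_mono {Q : ℕ} {a b : ℕ → ℝ} (h : ∀ p, p.Prime → 0 ≤ a p ∧ a p ≤ b p) :
    Phi Q a ≤ Phi Q b := by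
  unfold Phi
  apply sum_le_sum
  intro s hs
  have h1 := (mem_RR hs).1
  exact prod_le_prod (fun p hp => (h p (h1 p hp)).1) (fun p hp => (h p (h1 p hp)).2)

lemma RR_subset {Q : ℕ} {s t : Finset ℕ} (hs : s ∈ RR Q) (h : t ⊆ s) : t ∈ RR Q := by
  have h0 := mem_RR hs
  unfold RR at hs ⊢
  rw [mem_filter, mem_powerset] at hs ⊢
  refine ⟨h.trans hs.1, le_trans ?_ hs.2⟩
  exact prod_le_prod_of_subset_of_one_le' h (fun p hp _ => (h0.1 p hp).one_lt.le)

lemma Phi_add {Q : ℕ} {a b : ℕ → ℝ} (ha : ∀ p, p.Prime → 0 ≤ a p) (hb : ∀ p, p.Prime → 0 ≤ b p) :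
    Phi Q (fun p => a p + b p) ≤ Phi Q a * Phi Q b := by
  unfold Phi
  rw [sum_mul_sum]
  have h1 : ∀ s ∈ RR Q, ∏ p ∈ s, (a p + b p) =
      ∑ t ∈ s.powerset, (∏ p ∈ t, a p) * ∏ p ∈ s \ t, b p := by
    intro s _
    rw [prod_add]
  rw [sum_congr rfl h1, ← sum_product', sum_sigma']
  -- injection (s, t) ↦ (t, s \ t)
  have hinj : Set.InjOn (fun x : (_ : Finset ℕ) × Finset ℕ => (x.2, x.1 \ x.2))
      ((RR Q).sigma (fun s => s.powerset) : Set ((_ : Finset ℕ) × Finset ℕ)) := by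
    rintro ⟨s, t⟩ hx ⟨s', t'⟩ hx' hxy
    simp only [Prod.mk.injEq] at hxy
    obtain ⟨h2, h3⟩ := hxy
    subst h2
    rw [mem_coe, mem_sigma, mem_powerset] at hx hx'
    have hx2 : t ⊆ s := hx.2
    have hx2' : t ⊆ s' := hx'.2
    have : s = s' := by
      rw [← union_sdiff_of_subset hx2, ← union_sdiff_of_subset hx2', h3]
    subst this
    rfl
  have h2 : ∑ x ∈ (RR Q).sigma (fun s => s.powerset),
      (∏ p ∈ x.2, a p) * ∏ p ∈ x.1 \ x.2, b p =
      ∑ y ∈ ((RR Q).sigma (fun s => s.powerset)).image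
        (fun x : (_ : Finset ℕ) × Finset ℕ => (x.2, x.1 \ x.2)),
        (∏ p ∈ y.1, a p) * ∏ p ∈ y.2, b p := by
    rw [sum_image hinj]
  rw [h2]
  apply sum_le_sum_of_subset_of_nonneg
  · intro y hy
    rw [mem_image] at hy
    obtain ⟨⟨s, t⟩, hx, rfl⟩ := hy
    rw [mem_sigma, mem_powerset] at hx
    rw [mem_product]
    exact ⟨RR_subset hx.1 hx.2, RR_subset hx.1 sdiff_subset⟩
  · intro y hy _
    rw [mem_product] at hy
    exact mul_nonneg (prod_nonneg fun p hp => ha p ((mem_RR hy.1).1 p hp))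
      (prod_nonneg fun p hp => hb p ((mem_RR hy.2).1 p hp))

lemma Phi_inv_le (Q : ℕ) : Phi Q (fun p => 1 / (p : ℝ)) ≤ 1 + Real.log Q := by
  have h1 : Phi Q (fun p => 1 / (p : ℝ)) = ∑ s ∈ RR Q, ((Ps s : ℕ) : ℝ)⁻¹ := by
    unfold Phi Ps
    apply sum_congr rfl
    intro s _
    push_cast
    rw [prod_div_distrib, prod_const_one, one_div]
  rw [h1]
  have h2 : ∑ s ∈ RR Q, ((Ps s : ℕ) : ℝ)⁻¹ = ∑ n ∈ (RR Q).image Ps, ((n : ℕ) : ℝ)⁻¹ := by
    rw [sum_image (Ps_injOn Q)]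
  rw [h2]
  have h3 : ∑ n ∈ (RR Q).image Ps, ((n : ℕ) : ℝ)⁻¹ ≤ ∑ n ∈ Icc 1 Q, ((n : ℕ) : ℝ)⁻¹ := by
    apply sum_le_sum_of_subset_of_nonneg
    · intro n hn
      rw [mem_image] at hn
      obtain ⟨s, hs, rfl⟩ := hn
      rw [mem_Icc]
      exact ⟨Ps_pos (mem_RR hs).1, (mem_RR hs).2⟩
    · intro n _ _; positivity
  refine h3.trans ?_
  have h4 := harmonic_le_one_add_log Q
  rw [harmonic_eq_sum_Icc] at h4
  push_cast at h4
  exact h4

lemma Phi_conv_le (Q : ℕ) : Phi Q (fun p => 4 / ((p : ℝ) * (p - 2))) ≤ Real.exp 3 := by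
  have h0 : ∀ p : ℕ, p.Prime → (0 : ℝ) ≤ 4 / ((p : ℝ) * (p - 2)) := by
    intro p hp
    have : (2 : ℝ) ≤ p := by exact_mod_cast hp.two_le
    exact div_nonneg (by norm_num) (mul_nonneg (by linarith) (by linarith))
  set P := (range (Q + 1)).filter Nat.Prime with hP
  have h1 : Phi Q (fun p => 4 / ((p : ℝ) * (p - 2))) ≤
      ∏ p ∈ P, (1 + 4 / ((p : ℝ) * (p - 2))) := by
    rw [prod_one_add]
    unfold Phi RR
    apply sum_le_sum_of_subset_of_nonneg (filter_subset _ _)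
    intro s hs _
    rw [mem_powerset] at hs
    exact prod_nonneg (fun p hp => h0 p (mem_filter.mp (hs hp)).2)
  refine h1.trans ?_
  have h2 : ∏ p ∈ P, (1 + 4 / ((p : ℝ) * (p - 2))) ≤
      ∏ p ∈ P, Real.exp (4 / ((p : ℝ) * (p - 2))) := by
    apply prod_le_prod
    · intro p hp
      have := h0 p (mem_filter.mp hp).2
      linarith
    · intro p _
      rw [add_comm]
      exact Real.add_one_le_exp _
  refine h2.trans ?_
  rw [← Real.exp_sum]
  apply Real.exp_le_exp.mpr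
  -- telescoping bound
  have h3 : ∀ K : ℕ, ∑ n ∈ Icc 3 (K + 3), 4 / ((n : ℝ) * (n - 2)) ≤
      3 - 2 / ((K : ℝ) + 3) - 2 / ((K : ℝ) + 2) := by
    intro K
    induction K with
    | zero => norm_num
    | succ K ih =>
      rw [sum_Icc_succ_top (by omega)]
      have h4 : (0 : ℝ) < (K : ℝ) + 2 := by positivity
      have h5 : (4 : ℝ) / (((K + 1 + 3 : ℕ) : ℝ) * (((K + 1 + 3 : ℕ) : ℝ) - 2)) =
          2 / ((K : ℝ) + 2) - 2 / ((K : ℝ) + 4) := by
        push_cast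
        have e1 : (K : ℝ) + 1 + 3 - 2 = K + 2 := by ring
        have e2 : (K : ℝ) + 1 + 3 = K + 4 := by ring
        rw [e1, e2]
        field_simp
        ring
      have e : K + 1 + 3 = K + 3 + 1 := by ring
      rw [show (K + 3 + 1 : ℕ) = K + 1 + 3 by ring] at *
      rw [h5]
      push_cast
      have e3 : (K : ℝ) + 1 + 3 = K + 4 := by ring
      have e4 : (K : ℝ) + 1 + 2 = K + 3 := by ring
      rw [e3, e4]
      linarith
  have h4 : ∑ p ∈ P, 4 / ((p : ℝ) * (p - 2)) ≤ ∑ n ∈ Icc 3 (Q + 3), 4 / ((n : ℝ) * (n - 2)) := by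
    have h5 : ∑ p ∈ P, 4 / ((p : ℝ) * (p - 2)) =
        ∑ p ∈ P.filter (fun p => p ≠ 2), 4 / ((p : ℝ) * (p - 2)) := by
      symm
      apply sum_subset (filter_subset _ _)
      intro p hp hnp
      have h6 : p = 2 := by
        by_contra h7
        exact hnp (mem_filter.mpr ⟨hp, h7⟩)
      subst h6
      norm_num
    rw [h5]
    apply sum_le_sum_of_subset_of_nonneg
    · intro p hp
      rw [mem_filter, mem_filter, mem_range] at hp
      rw [mem_Icc]
      have := hp.1.2.two_le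
      omega
    · intro n hn _
      rw [mem_Icc] at hn
      have : (3 : ℝ) ≤ n := by exact_mod_cast hn.1
      exact div_nonneg (by norm_num) (mul_nonneg (by linarith) (by linarith))
  refine h4.trans ((h3 Q).trans ?_)
  have h6 : (0 : ℝ) ≤ 2 / ((Q : ℝ) + 3) := by positivity
  have h7 : (0 : ℝ) ≤ 2 / ((Q : ℝ) + 2) := by positivity
  linarith

theorem HH_le (hd : Even d) (Q : ℕ) :
    HH d Q ≤ Real.exp 3 * (1 + Real.log Q) ^ 2 := by
  have hlog : 0 ≤ Real.log Q := Real.log_natCast_nonneg Q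
  have h1 : HH d Q = Phi Q (hh d) := rfl
  have h2 : Phi Q (hh d) ≤ Phi Q (fun p => 1 / (p : ℝ) + (1 / (p : ℝ) + 4 / ((p : ℝ) * (p - 2)))) := by
    apply Phi_mono
    intro p hp
    refine ⟨hh_nonneg hd hp, ?_⟩
    have hν := nu_lt hd hp
    by_cases hp2 : p = 2
    · subst hp2
      have : nu d 2 = 1 := by unfold nu; rw [if_pos hd.two_dvd]
      unfold hh
      rw [this]
      norm_num
    · have hp3 : 3 ≤ p := by have := hp.two_le; omega
      have hp3' : (3 : ℝ) ≤ p := by exact_mod_cast hp3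
      have h4 : (nu d p : ℝ) ≤ 2 := by unfold nu; split_ifs <;> norm_num
      have h5 : hh d p ≤ 2 / (p - 2) := by
        unfold hh
        apply div_le_div₀ (by norm_num) h4 (by linarith) (by linarith)
      refine h5.trans (le_of_eq ?_)
      have h6 : (p : ℝ) - 2 ≠ 0 := by linarith
      have h7 : (p : ℝ) ≠ 0 := by linarith
      field_simp
      ring
  have hpos : ∀ p : ℕ, p.Prime → (0 : ℝ) ≤ 1 / (p : ℝ) := fun p _ => by positivity
  have hpos2 : ∀ p : ℕ, p.Prime → (0 : ℝ) ≤ 4 / ((p : ℝ) * (p - 2)) := by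
    intro p hp
    have : (2 : ℝ) ≤ p := by exact_mod_cast hp.two_le
    exact div_nonneg (by norm_num) (mul_nonneg (by linarith) (by linarith))
  have h3 := Phi_add (Q := Q) (a := fun p => 1 / (p : ℝ))
    (b := fun p => 1 / (p : ℝ) + 4 / ((p : ℝ) * (p - 2))) hpos
    (fun p hp => add_nonneg (hpos p hp) (hpos2 p hp))
  have h4 := Phi_add (Q := Q) (a := fun p => 1 / (p : ℝ))
    (b := fun p => 4 / ((p : ℝ) * (p - 2))) hpos hpos2
  have h5 := Phi_inv_le Q
  have h6 := Phi_conv_le Q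
  have hnn : ∀ a : ℕ → ℝ, (∀ p, p.Prime → 0 ≤ a p) → 0 ≤ Phi Q a := by
    intro a ha
    unfold Phi
    exact sum_nonneg (fun s hs => prod_nonneg (fun p hp => ha p ((mem_RR hs).1 p hp)))
  rw [h1]
  calc Phi Q (hh d) ≤ _ := h2
    _ ≤ Phi Q (fun p => 1 / (p : ℝ)) * Phi Q (fun p => 1 / (p : ℝ) + 4 / ((p : ℝ) * (p - 2))) := h3
    _ ≤ Phi Q (fun p => 1 / (p : ℝ)) * (Phi Q (fun p => 1 / (p : ℝ)) *
          Phi Q (fun p => 4 / ((p : ℝ) * (p - 2)))) :=
        mul_le_mul_of_nonneg_left h4 (hnn _ hpos)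
    _ ≤ (1 + Real.log Q) * ((1 + Real.log Q) * Real.exp 3) := by
        apply mul_le_mul h5 _ (mul_nonneg (hnn _ hpos) (hnn _ hpos2)) (by linarith)
        exact mul_le_mul h5 h6 (hnn _ hpos2) (by linarith)
    _ = Real.exp 3 * (1 + Real.log Q) ^ 2 := by ring

end Pool.Agent.PrimePairOmega
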